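import Pool.Agent.Work.MP_7b0bad_ag.HFinB
import Pool.Agent.Work.MP_7b0bad_ag.MT.GStmts

set_option autoImplicit false

/-!
# Block MW: the purely wild conjecture reduces to almost simple groups; statements

`R G P`: the `p`-subgroup `P` is an inertia group for `G` (in the application `Rel k G P`).
`RH R P H` (`Bd/B09.lean`): `H` is a subgroup with `R H P'` for some `P' ≤ P`, `P' ≤ H`.
-/

namespace MP7b0bad.MW

/-! ## The abstract reduction -/

/-- axioms: `RelAx` (join etc.) and lifting along solvable normal subgroups -/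
structure WAx (p : ℕ) (R : ∀ (G : Type) [Group G], Subgroup G → Prop) : Prop where
  rel : RelAx p R
  solv : ∀ (G : Type) [Group G] [Finite G] (P N : Subgroup G) [N.Normal], IsPGroup p P →
    Subgroup.normalClosure (P : Set G) = ⊤ → Group.IsSolvable N →
    R (G ⧸ N) (P.map (QuotientGroup.mk' N)) → R G P

/-- the subgroup generated by the realised subgroups -/
def GamR (R : ∀ (G : Type) [Group G], Subgroup G → Prop) {G : Type} [Group G] (P : Subgroup G) :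
    Subgroup G := sSup {H : Subgroup G | RH R P H}

/-- the property of a simple group used in the reduction (`StarM` with `GamR` in place of `Gam`) -/
def StarR (p : ℕ) (R : ∀ (G : Type) [Group G], Subgroup G → Prop) (L : Type) [Group L] : Prop :=
  ∀ (X : Type) [Group X] [Finite X] (L' : Subgroup X) (u : X), L'.Normal → Nonempty (L' ≃* L) →
    (∀ x : X, (∀ l ∈ L', x * l = l * x) → x = 1) → orderOf u = p →
    L' ⊔ Subgroup.zpowers u = ⊤ → L' ≤ GamR R (Subgroup.zpowers u)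

/-- [WNor] basic properties of `GamR` -/
def WNor : Prop := ∀ (p : ℕ) [Fact p.Prime] (R : ∀ (G : Type) [Group G], Subgroup G → Prop),
  RelAx p R → ∀ (G : Type) [Group G] [Finite G] (P : Subgroup G), IsPGroup p P →
  P ≤ GamR R P ∧ Gam p P ≤ GamR R P ∧ (GamR R P = ⊤ → R G P) ∧
  R (GamR R P) (P.subgroupOf (GamR R P)) ∧
  (∀ c : G, (∀ q ∈ P, c * q * c⁻¹ ∈ P) → ∀ x ∈ GamR R P, c * x * c⁻¹ ∈ GamR R P) ∧
  ∀ (X P' : Subgroup G), P' ≤ P → P' ≤ X →
    (GamR R (P'.subgroupOf X)).map X.subtype ≤ GamR R P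

/-- [WSup] group theory: a supplement `H` of `N` that contains `P`, with `N ⊓ H` solvable.
Take `H` minimal with `P ≤ H`, `N ⊔ H = ⊤`, `K = N ⊓ H` (normal in `H`).  If `T ≤ K`, `P`
normalises `T` and every `H`-conjugate of `T` is a `K`-conjugate of `T` then `H = K N_H(T)`
(Frattini), so `N_H(T) = H` by minimality: `T` is normal in `H`.  (1) `T = S ⊓ K`, `S` a Sylow
`p`-subgroup of `K ⊔ P` containing `P`: so `K` has a normal Sylow `p`-subgroup `T₁`.  (2) for a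
prime `r ≠ p` the number of Sylow `r`-subgroups of `K / T₁` divides its order, which is prime to
`p`, so `P` normalises one of them; `T` = its preimage.  So all Sylow subgroups of `K / T₁` are
normal, `K / T₁` is nilpotent.  `nclIn H P = H`: `N ⊔ nclIn H P` is normal and contains `P`. -/
def WSup : Prop := ∀ (p : ℕ) [Fact p.Prime] (G : Type) [Group G] [Finite G] (P N : Subgroup G)
  [N.Normal], IsPGroup p P → Subgroup.normalClosure (P : Set G) = ⊤ →
  ∃ H : Subgroup G, P ≤ H ∧ N ⊔ H = ⊤ ∧ Group.IsSolvable (N.subgroupOf H) ∧ nclIn H P = H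

/-- [WLift] (hSup, hNor) `H` from `WSup`, `H / (N ⊓ H) ≃ G / N`, so `R H P` by `solv` -/
def WLift : Prop := ∀ (p : ℕ) [Fact p.Prime] (R : ∀ (G : Type) [Group G], Subgroup G → Prop),
  WAx p R → ∀ (G : Type) [Group G] [Finite G] (P N : Subgroup G) [N.Normal], IsPGroup p P →
  Subgroup.normalClosure (P : Set G) = ⊤ → R (G ⧸ N) (P.map (QuotientGroup.mk' N)) →
  N ⊔ GamR R P = ⊤

/-- [WAb] minimal normal subgroups of order prime to `p` (the second half of `prf_HAb`, `Bd/B12`,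
for an arbitrary subgroup `Γ`) -/
def WAb : Prop := ∀ (p : ℕ) [Fact p.Prime] (G : Type) [Group G] [Finite G] (P N Γ : Subgroup G),
  N.Normal → IsPGroup p P → Subgroup.normalClosure (P : Set G) = ⊤ → ¬ p ∣ Nat.card N →
  P ≤ Γ → (∀ c : G, (∀ q ∈ P, c * q = q * c) → ∀ x ∈ Γ, c * x * c⁻¹ ∈ Γ) →
  (∀ a ∈ N, ∀ q ∈ P, a⁻¹ * q * a * q⁻¹ ∈ Γ) → N ⊔ Γ = ⊤ → Γ = ⊤

/-- [WB1] (hNor) `HB1M` for `StarR`.  `v` from `HB1M_v` (`Bd/B16.lean`), `X = L ⊔ ⟨v⟩`, `Z` the
centraliser of `L` in `X` (a `p`-group: it meets `L` trivially); `StarR` for `X / Z` gives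
`R (X / Z) ⟨v⟩`, `solv` gives `R X ⟨v⟩` (the normal closure of `v` in `X` contains `[L, v] ≠ 1`,
hence `L`), so `X ≤ GamR R P` -/
def WB1 : Prop := ∀ (p : ℕ) [Fact p.Prime] (R : ∀ (G : Type) [Group G], Subgroup G → Prop),
  WAx p R → ∀ (G : Type) [Group G] [Finite G] (P L : Subgroup G) (u : G), IsPGroup p P → u ∈ P →
  (∀ x ∈ L, u * x * u⁻¹ ∈ L) → (∃ x ∈ L, u * x ≠ x * u) → IsSimpleGroup L →
  (∃ a b : L, a * b ≠ b * a) → StarR p R L → L ≤ GamR R P

/-- [WRed] THE REDUCTION (hNor, hLift, hAb, hB1; compare `HRedM_aux`, `Bd/B16.lean`) -/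
def WRed : Prop := ∀ (p : ℕ) [Fact p.Prime] (R : ∀ (G : Type) [Group G], Subgroup G → Prop),
  WAx p R → ∀ (G : Type) [Group G] [Finite G] (P : Subgroup G), IsPGroup p P →
  Subgroup.normalClosure (P : Set G) = ⊤ → CFac p (StarR p R) G → R G P

/-! ## Alternating groups -/

/-- the two seeds for alternating groups: `A_p`, and a transitive group of degree `p + 1` -/
structure WSeed (p : ℕ) (R : ∀ (G : Type) [Group G], Subgroup G → Prop) : Prop where
  ap : ∀ x : alternatingGroup (Fin p), (x : Equiv.Perm (Fin p)).IsCycle →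
    (x : Equiv.Perm (Fin p)).support.card = p → R (alternatingGroup (Fin p)) (Subgroup.zpowers x)
  ap1 : ∃ (H : Subgroup (Equiv.Perm (Fin (p + 1)))) (x : Equiv.Perm (Fin (p + 1))), x.IsCycle ∧
    x.support.card = p ∧ x ∈ H ∧ H ≤ alternatingGroup (Fin (p + 1)) ∧ (∀ i j, ∃ h ∈ H, h i = j) ∧
    nclIn H (Subgroup.zpowers x) = H ∧ R H ((Subgroup.zpowers x).subgroupOf H)

/-- [WEmb] automorphisms of odd prime order of `A_n` are inner -/
def WEmb : Prop := ∀ (n p : ℕ), 5 ≤ n → p.Prime → p ≠ 2 → ∀ (X : Type) [Group X]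
  [Finite X] (L : Subgroup X) (u : X), L.Normal → Nonempty (L ≃* alternatingGroup (Fin n)) →
  (∀ x : X, (∀ l ∈ L, x * l = l * x) → x = 1) → orderOf u = p → L ⊔ Subgroup.zpowers u = ⊤ →
  Nonempty (X ≃* alternatingGroup (Fin n))

/-- [WAlt1] the blocks.  `x_i` the `p`-cycle of `x` through `i`, `O_i` its support, `x' = x x_i⁻¹`.
(1) `A_(O_i) ⊔ ⟨x⟩ = A_(O_i) × ⟨x'⟩` is realised: `solv` with `N = ⟨x'⟩` and the seed `ap`
(`normalClosure` of `x`: `A_p` is simple); so `Γ` contains `A_(O_i)`, `x_i` and `x'`.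
(2) the seed `ap1`, moved to `O_i ∪ {j}` so that its `p`-cycle becomes `x_i`, gives `H₁`; the
subgroup `nclIn (H₁ ⊔ ⟨x⟩) ⟨x⟩` is realised (`solv`, kernel in `⟨x'⟩`, quotient `H₁`); as `x' ∈ Γ`,
`H₁ ≤ Γ`.
(3) `E = ⟨t_m⟩`, `t_m` = swap of `x^m i` and `x^m j`, is a 2-group normalised by `x`; the block
`nclIn (E ⊔ ⟨x⟩) ⟨x⟩` is `p`-solvable and generated by conjugates of `x`, hence realised (`HCrit`,
compare `prf_HNor`), and contains `t_0 x t_0 x⁻¹ = t_0 t_1`. -/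
def WAlt1 : Prop := ∀ (p : ℕ) [Fact p.Prime], 5 ≤ p →
  ∀ (R : ∀ (G : Type) [Group G], Subgroup G → Prop), WAx p R → WSeed p R → ∀ (n : ℕ)
  (x : Equiv.Perm (Fin n)), orderOf x = p → ∀ (Γ : Subgroup (Equiv.Perm (Fin n))),
  (∀ H : Subgroup (Equiv.Perm (Fin n)), H ≤ alternatingGroup (Fin n) → x ∈ H →
    R H ((Subgroup.zpowers x).subgroupOf H) → H ≤ Γ) →
  (∀ i ∈ x.support, ∀ g : Equiv.Perm (Fin n), g.IsThreeCycle →
    (∀ j, g j ≠ j → ∃ m : ℕ, (x ^ m) i = j) → g ∈ Γ) ∧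
  (∀ i ∈ x.support, ∀ j, j ∉ x.support → ∃ h ∈ Γ, h i = j ∧
    ∀ l, h l ≠ l → l = j ∨ ∃ m : ℕ, (x ^ m) i = l) ∧
  ∀ i ∈ x.support, ∀ j ∈ x.support, (∀ m : ℕ, (x ^ m) i ≠ j) → ∃ h ∈ Γ, h i = j ∧ h j = i ∧
    h (x i) = x j ∧ h (x j) = x i ∧ ∀ l, h l ≠ l → l = i ∨ l = j ∨ l = x i ∨ l = x j

/-- [WAlt2] permutation groups: `Γ` contains the alternating group.  Write `i ~ j` if `i = j` or
some 3-cycle in `Γ` moves `i` and `j`; conjugating the 3-cycles of (1) by the elements of (2), (3)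
all points are linked; 3-cycles with a connected graph generate the alternating group -/
def WAlt2 : Prop := ∀ (p n : ℕ), 5 ≤ p → p.Prime → ∀ (x : Equiv.Perm (Fin n)), orderOf x = p →
  ∀ (Γ : Subgroup (Equiv.Perm (Fin n))),
  (∀ i ∈ x.support, ∀ g : Equiv.Perm (Fin n), g.IsThreeCycle →
    (∀ j, g j ≠ j → ∃ m : ℕ, (x ^ m) i = j) → g ∈ Γ) →
  (∀ i ∈ x.support, ∀ j, j ∉ x.support → ∃ h ∈ Γ, h i = j ∧
    ∀ l, h l ≠ l → l = j ∨ ∃ m : ℕ, (x ^ m) i = l) →
  (∀ i ∈ x.support, ∀ j ∈ x.support, (∀ m : ℕ, (x ^ m) i ≠ j) → ∃ h ∈ Γ, h i = j ∧ h j = i ∧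
    h (x i) = x j ∧ h (x j) = x i ∧ ∀ l, h l ≠ l → l = i ∨ l = j ∨ l = x i ∨ l = x j) →
  alternatingGroup (Fin n) ≤ Γ

/-- [WAlt3] (hAlt1, hAlt2, hNor) -/
def WAlt3 : Prop := ∀ (p : ℕ) [Fact p.Prime], 5 ≤ p →
  ∀ (R : ∀ (G : Type) [Group G], Subgroup G → Prop), WAx p R → WSeed p R → ∀ (n : ℕ)
  (x : alternatingGroup (Fin n)), orderOf x = p → R (alternatingGroup (Fin n)) (Subgroup.zpowers x)

/-- [WAlt] (hAlt3, hEmb, hNor) -/
def WAlt : Prop := ∀ (p : ℕ) [Fact p.Prime], 5 ≤ p →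
  ∀ (R : ∀ (G : Type) [Group G], Subgroup G → Prop), WAx p R → WSeed p R → ∀ (n : ℕ), 5 ≤ n →
  StarR p R (alternatingGroup (Fin n))

/-! ## The application -/

/-- [WRel] `Rel k` satisfies the axioms -/
def WRel : Prop := ∀ (k : Type) [Field k] [IsAlgClosed k] (p : ℕ) [Fact p.Prime] [CharP k p],
  WAx p (fun (G : Type) [Group G] (P : Subgroup G) => Rel k G P)

/-- the seed for `A_p`: `y^p - y^2 + x^2 = 0` -/
def ApMain : Prop := ∀ (p : ℕ) [Fact p.Prime] (k : Type) [Field k] [IsAlgClosed k] [CharP k p],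
  5 ≤ p → ∃ (x c : Equiv.Perm (Fin p)), x.IsCycle ∧ x.support.card = p ∧ ¬ p ∣ orderOf c ∧
    (∃ a : ℕ, c * x * c⁻¹ = x ^ a) ∧ (∀ m : ℕ, c ^ m * x = x * c ^ m → (p - 1) / 2 ∣ m) ∧
    MT.Rz k (Subgroup.zpowers x) c (alternatingGroup (Fin p))

/-- [WSd] (hAp, hAb = `AbMain` with `e = 1`, hRel) the seeds; the tame part is removed by pullback
(compare `prf_ANax`, field `pow`) -/
def WSd : Prop := ∀ (k : Type) [Field k] [IsAlgClosed k] (p : ℕ) [Fact p.Prime] [CharP k p], 5 ≤ p →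
  WSeed p (fun (G : Type) [Group G] (P : Subgroup G) => Rel k G P)

/-- THE PURELY WILD CONJECTURE, all `p`, composition factors alternating or covered as before; no
condition for `p = 2` -/
def WFin : Prop := ∀ (p : ℕ) [Fact p.Prime] (k : Type) [Field k] [IsAlgClosed k] [CharP k p]
  (G : Type) [Group G] [Finite G] (P : Subgroup G), IsPGroup p P →
  Subgroup.normalClosure (P : Set G) = ⊤ →
  (p ≠ 2 → CFac p (fun L _ => InvGen p L ∨
    (∃ n : ℕ, 5 ≤ n ∧ Nonempty (L ≃* alternatingGroup (Fin n))) ∨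
    ∃ (F : Type) (_ : Field F) (_ : Finite F), p ∣ Nat.card F - 1 ∧
      Nonempty (L ≃* Matrix.ProjectiveSpecialLinearGroup (Fin 2) F)) G) → Occurs k G P

end MP7b0bad.MW
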