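import Pool.Agent.Work.MP_7b0bad_ag.MW.Stmts
import Pool.Agent.Work.MP_7b0bad_ag.AllH

set_option autoImplicit false

/-! # Minimal normal subgroups of order prime to `p` -/

namespace MP7b0bad.MW

open Subgroup

theorem prf_WAb : WAb := by
  intro p _ G _ _ P N Γ hN hP hncl hNp' h1 h2 h4 hsup
  haveI := hN
  obtain ⟨h5, -, -⟩ := all_GCop p G N P hNp' hP (fun q _ a ha => hN.conj_mem a ha q)
  have hle : nclIn (N ⊔ P) P ≤ Γ := by
    refine (closure_le _).2 ?_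
    rintro _ ⟨x, hx, q, hq, rfl⟩
    obtain ⟨n, hn, y, hy, rfl⟩ := mem_sup_of_normal_left.1 hx
    have h6 : y * q * y⁻¹ ∈ P := mul_mem (mul_mem hy hq) (inv_mem hy)
    have h7 := h4 n⁻¹ (inv_mem hn) _ h6
    have h8 := mul_mem h7 (h1 h6)
    have h9 : n * y * q * (n * y)⁻¹ =
        n⁻¹⁻¹ * (y * q * y⁻¹) * n⁻¹ * (y * q * y⁻¹)⁻¹ * (y * q * y⁻¹) := by group
    show n * y * q * (n * y)⁻¹ ∈ Γ
    rw [h9]
    exact h8
  refine HAb_key P N Γ hN h1 hncl hsup ?_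
  intro n hn x hx
  obtain ⟨d, hd, c, hc, hcP, rfl⟩ := h5 n hn
  have h6 := h2 c hcP x hx
  have h7 := mul_mem (mul_mem (hle hd) h6) (inv_mem (hle hd))
  have h8 : d * c * x * (d * c)⁻¹ = d * (c * x * c⁻¹) * d⁻¹ := by group
  rw [h8]
  exact h7

end MP7b0bad.MW
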