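import Pool.Agent.Work.MP_7b0bad_ag.MW.Stmts

set_option autoImplicit false

/-!
# Block MW, item WAlt: the property `StarR` for alternating groups
-/

namespace MP7b0bad.MW

/-- transport of `R` along an isomorphism onto the whole group, seen as the subgroup `⊤` -/
theorem WAlt_top {p : ℕ} {R : ∀ (G : Type) [Group G], Subgroup G → Prop} (hR : RelAx p R)
    {X Y : Type} [Group X] [Group Y] (φ : X ≃* Y) (u : X)
    (h : R Y (Subgroup.zpowers (φ u))) : RH R (Subgroup.zpowers u) (⊤ : Subgroup X) := by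
  refine ⟨Subgroup.zpowers u, le_rfl, le_top, ?_⟩
  have h1 := hR.iso Y (⊤ : Subgroup X) (φ.symm.trans Subgroup.topEquiv.symm)
    (Subgroup.zpowers (φ u)) h
  have h2 : (Subgroup.zpowers (φ u)).map
      (φ.symm.trans (Subgroup.topEquiv (G := X)).symm).toMonoidHom =
      (Subgroup.zpowers u).subgroupOf (⊤ : Subgroup X) := by
    rw [MonoidHom.map_zpowers]
    ext ⟨y, hy⟩
    rw [Subgroup.mem_subgroupOf, Subgroup.mem_zpowers_iff, Subgroup.mem_zpowers_iff]
    refine exists_congr fun k => ?_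
    rw [Subtype.ext_iff]
    have h3 : (((φ.symm.trans (Subgroup.topEquiv (G := X)).symm).toMonoidHom (φ u) : (⊤ : Subgroup X))
        : X) = u := φ.symm_apply_apply u
    rw [Subgroup.coe_zpow, h3]
  rw [h2] at h1
  exact h1

theorem prf_WAlt (_hNor : WNor) (hAlt3 : WAlt3) (hEmb : WEmb) : WAlt := by
  intro p _ hp R hR hS n hn X _ _ L' u hL' hiso hf hu htop
  have hpp : p.Prime := Fact.out
  obtain ⟨φ⟩ := hEmb n p hn hpp (by omega) X L' u hL' hiso hf hu htop
  have h1 : R (alternatingGroup (Fin n)) (Subgroup.zpowers (φ u)) :=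
    hAlt3 p hp R hR hS n (φ u) (by rw [MulEquiv.orderOf_eq φ u, hu])
  have h2 : RH R (Subgroup.zpowers u) (⊤ : Subgroup X) := WAlt_top hR.rel φ u h1
  exact le_top.trans (le_sSup h2)

end MP7b0bad.MW
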