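import Mathlib
import Pool.Agent.Work.MP_7b0bad_ag.MW.Stmts

set_option autoImplicit false

namespace MP7b0bad.MW

open Equiv Equiv.Perm

/-! ## The block `H ⊔ ⟨x⟩`, `x = c x'`, `c ∈ H`, `x'` centralises `H` -/

theorem WAlt1_conj_pow {Q : Type} [Group Q] (a c : Q) (k : ℤ) :
    a * c ^ k * a⁻¹ = (a * c * a⁻¹) ^ k := (conj_zpow).symm

theorem WAlt1_comm_zpow {Q : Type} [Group Q] {h x' : Q} (e : h * x' = x' * h) (k : ℤ) :
    h * x' ^ k = x' ^ k * h := (Commute.zpow_right (show Commute h x' from e) k)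

theorem WAlt1_mul_zpow {Q : Type} [Group Q] {c x' : Q} (e : c * x' = x' * c) (k : ℤ) :
    (c * x') ^ k = c ^ k * x' ^ k := Commute.mul_zpow e k

theorem WAlt1_lift {Q : Type} [Group Q] (H : Subgroup Q) (c x' : Q) (hc : c ∈ H)
    (hx' : ∀ h ∈ H, h * x' = x' * h) (hncl : nclIn H (Subgroup.zpowers c) = H) :
    ∀ h ∈ H, ∃ k : ℤ, h * x' ^ k ∈ nclIn H (Subgroup.zpowers (c * x')) := by
  intro h hh
  rw [← hncl] at hh
  have key : ∀ g ∈ nclIn H (Subgroup.zpowers c),
      g ∈ H ∧ ∃ k : ℤ, g * x' ^ k ∈ nclIn H (Subgroup.zpowers (c * x')) := by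
    intro g hg
    refine Subgroup.closure_induction (p := fun g _ =>
      g ∈ H ∧ ∃ k : ℤ, g * x' ^ k ∈ nclIn H (Subgroup.zpowers (c * x'))) ?_ ?_ ?_ ?_ hg
    · rintro _ ⟨a, ha, q, hq, rfl⟩
      obtain ⟨k, rfl⟩ := Subgroup.mem_zpowers_iff.1 hq
      refine ⟨H.mul_mem (H.mul_mem ha (H.zpow_mem hc k)) (H.inv_mem ha), k, ?_⟩
      refine Subgroup.subset_closure ⟨a, ha, (c * x') ^ k,
        Subgroup.zpow_mem_zpowers _ k, ?_⟩
      rw [WAlt1_mul_zpow (hx' c hc)]
      have := WAlt1_comm_zpow (hx' a⁻¹ (H.inv_mem ha)) k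
      simp only [mul_assoc]
      rw [this]
    · exact ⟨H.one_mem, 0, by simp⟩
    · rintro g₁ g₂ - - ⟨h1, k1, m1⟩ ⟨h2, k2, m2⟩
      refine ⟨H.mul_mem h1 h2, k1 + k2, ?_⟩
      have := Subgroup.mul_mem _ m1 m2
      have e2 := WAlt1_comm_zpow (hx' g₂ h2) k1
      have e : g₁ * g₂ * x' ^ (k1 + k2) = g₁ * x' ^ k1 * (g₂ * x' ^ k2) := by
        rw [zpow_add]
        simp only [mul_assoc]
        rw [← mul_assoc g₂ (x' ^ k1), e2]
        simp only [mul_assoc]
      rw [e]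
      exact this
    · rintro g - ⟨h1, k1, m1⟩
      refine ⟨H.inv_mem h1, -k1, ?_⟩
      have := Subgroup.inv_mem _ m1
      have e2 := WAlt1_comm_zpow (hx' g⁻¹ (H.inv_mem h1)) (-k1)
      rw [e2]
      simpa [mul_inv_rev] using this
  exact (key h hh).2

theorem WAlt1_form {Q : Type} [Group Q] (H : Subgroup Q) (c x' : Q) (hc : c ∈ H)
    (hx' : ∀ h ∈ H, h * x' = x' * h) :
    ∀ y ∈ nclIn H (Subgroup.zpowers (c * x')), ∃ h ∈ H, ∃ k : ℤ, y = h * x' ^ k := by
  intro y hy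
  refine Subgroup.closure_induction (p := fun y _ => ∃ h ∈ H, ∃ k : ℤ, y = h * x' ^ k)
    ?_ ?_ ?_ ?_ hy
  · rintro _ ⟨a, ha, q, hq, rfl⟩
    obtain ⟨k, rfl⟩ := Subgroup.mem_zpowers_iff.1 hq
    refine ⟨a * c ^ k * a⁻¹, H.mul_mem (H.mul_mem ha (H.zpow_mem hc k)) (H.inv_mem ha), k, ?_⟩
    rw [WAlt1_mul_zpow (hx' c hc)]
    have := WAlt1_comm_zpow (hx' a⁻¹ (H.inv_mem ha)) k
    simp only [mul_assoc]
    rw [this]
  · exact ⟨1, H.one_mem, 0, by simp⟩
  · rintro y₁ y₂ - - ⟨h1, m1, k1, rfl⟩ ⟨h2, m2, k2, rfl⟩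
    refine ⟨h1 * h2, H.mul_mem m1 m2, k1 + k2, ?_⟩
    have e2 := WAlt1_comm_zpow (hx' h2 m2) k1
    rw [zpow_add]
    simp only [mul_assoc]
    rw [← mul_assoc h2 (x' ^ k1), e2]
    simp only [mul_assoc]
  · rintro y - ⟨h1, m1, k1, rfl⟩
    refine ⟨h1⁻¹, H.inv_mem m1, -k1, ?_⟩
    have e2 := WAlt1_comm_zpow (hx' h1⁻¹ (H.inv_mem m1)) (-k1)
    rw [e2]
    simp [mul_inv_rev]

theorem WAlt1_subgroupOf_zpowers {Q : Type} [Group Q] (H : Subgroup Q) (c : Q) (hc : c ∈ H) :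
    (Subgroup.zpowers c).subgroupOf H = Subgroup.zpowers (⟨c, hc⟩ : H) := by
  ext y
  rw [Subgroup.mem_subgroupOf, Subgroup.mem_zpowers_iff, Subgroup.mem_zpowers_iff]
  constructor
  · rintro ⟨k, hk⟩
    exact ⟨k, Subtype.ext (by simpa using hk)⟩
  · rintro ⟨k, hk⟩
    exact ⟨k, by simpa using congrArg Subtype.val hk⟩

theorem WAlt1_block {p : ℕ} [Fact p.Prime] {R : ∀ (G : Type) [Group G], Subgroup G → Prop}
    (hW : WAx p R) {Q : Type} [Group Q] [Finite Q] (H : Subgroup Q) (c x' : Q) (hc : c ∈ H)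
    (hx' : ∀ h ∈ H, h * x' = x' * h) (hord : IsPGroup p (Subgroup.zpowers (c * x')))
    (hdis : ∀ k : ℤ, x' ^ k ∈ H → x' ^ k = 1) (hncl : nclIn H (Subgroup.zpowers c) = H)
    (hR : R H ((Subgroup.zpowers c).subgroupOf H)) :
    R (nclIn H (Subgroup.zpowers (c * x')))
      ((Subgroup.zpowers (c * x')).subgroupOf (nclIn H (Subgroup.zpowers (c * x')))) := by
  set Y := nclIn H (Subgroup.zpowers (c * x')) with hY
  have hlift := WAlt1_lift H c x' hc hx' hncl
  have hform := WAlt1_form H c x' hc hx'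
  have hxY : c * x' ∈ Y := Subgroup.subset_closure ⟨1, H.one_mem, c * x',
    Subgroup.mem_zpowers _, by simp⟩
  have key : ∀ y : Y, ∃ h : H, ∃ k : ℤ, (y : Q) = h * x' ^ k := by
    intro y
    obtain ⟨h, hh, k, e⟩ := hform y y.2
    exact ⟨⟨h, hh⟩, k, e⟩
  choose π κ hπ using key
  have huniq : ∀ (h1 h2 : H) (k1 k2 : ℤ), (h1 : Q) * x' ^ k1 = h2 * x' ^ k2 → h1 = h2 := by
    intro h1 h2 k1 k2 e
    have e1 : (h2 : Q)⁻¹ * h1 = x' ^ (k2 - k1) := by
      rw [zpow_sub]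
      calc (h2 : Q)⁻¹ * h1 = (h2 : Q)⁻¹ * (h1 * x' ^ k1) * (x' ^ k1)⁻¹ := by group
        _ = (h2 : Q)⁻¹ * (h2 * x' ^ k2) * (x' ^ k1)⁻¹ := by rw [e]
        _ = x' ^ k2 * (x' ^ k1)⁻¹ := by group
    have e2 : x' ^ (k2 - k1) ∈ H := by
      rw [← e1]
      exact H.mul_mem (H.inv_mem h2.2) h1.2
    have e3 := hdis _ e2
    rw [e3] at e1
    apply Subtype.ext
    have := inv_mul_eq_one.1 e1
    exact this.symm
  have hmul : ∀ a b : Y, π (a * b) = π a * π b := by
    intro a b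
    refine huniq _ _ (κ (a * b)) (κ a + κ b) ?_
    rw [← hπ (a * b)]
    have e2 := WAlt1_comm_zpow (hx' (π b) (π b).2) (κ a)
    have e3 : ((a * b : Y) : Q) = (a : Q) * b := rfl
    rw [e3, hπ a, hπ b, zpow_add]
    push_cast
    simp only [mul_assoc]
    rw [← mul_assoc (π b : Q) (x' ^ κ a), e2]
    simp only [mul_assoc]
  let ψ : Y →* H := MonoidHom.mk' π hmul
  have hψ : ∀ y : Y, (y : Q) = (ψ y : Q) * x' ^ κ y := hπ
  have hsurj : Function.Surjective ψ := by
    intro h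
    obtain ⟨k, hk⟩ := hlift h h.2
    refine ⟨⟨_, hk⟩, ?_⟩
    exact (huniq _ _ _ _ (hπ ⟨_, hk⟩)).symm
  have hψx : ψ ⟨c * x', hxY⟩ = ⟨c, hc⟩ := by
    refine huniq _ _ (κ ⟨c * x', hxY⟩) 1 ?_
    rw [← hψ]
    simp
  have hker : ∀ y : ψ.ker, ((y : Y) : Q) = x' ^ κ (y : Y) := by
    intro y
    have h1 : ψ (y : Y) = 1 := y.2
    have := hψ (y : Y)
    rw [h1] at this
    simpa using this
  refine hW.solv Y _ ψ.ker ?_ ?_ ?_ ?_
  · -- p-group
    exact hord.comap_of_injective Y.subtype Y.subtype_injective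
  · -- normal closure
    rw [eq_top_iff]
    have h1 : Y ≤ (Subgroup.normalClosure
        (((Subgroup.zpowers (c * x')).subgroupOf Y : Subgroup Y) : Set Y)).map Y.subtype := by
      refine (Subgroup.closure_le _).2 ?_
      rintro _ ⟨a, ha, q, hq, rfl⟩
      obtain ⟨k, hk⟩ := hlift a ha
      have hqY : q ∈ Y := by
        obtain ⟨m, rfl⟩ := Subgroup.mem_zpowers_iff.1 hq
        exact Y.zpow_mem hxY m
      refine ⟨(⟨_, hk⟩ : Y) * (⟨q, hqY⟩ : Y) * (⟨_, hk⟩ : Y)⁻¹, ?_, ?_⟩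
      · refine Subgroup.normalClosure_normal.conj_mem _ (Subgroup.subset_normalClosure ?_) _
        exact hq
      · have e1 : x' ^ k * q = q * x' ^ k := by
          obtain ⟨m, rfl⟩ := Subgroup.mem_zpowers_iff.1 hq
          have : Commute (x' ^ k) ((c * x') ^ m) := by
            apply Commute.zpow_zpow
            exact Commute.mul_right (show Commute x' c from (hx' c hc).symm) (Commute.refl _)
          exact this
        simp only [map_mul, map_inv, Subgroup.coe_subtype]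
        calc a * x' ^ k * q * (a * x' ^ k)⁻¹ = a * (x' ^ k * q) * (x' ^ k)⁻¹ * a⁻¹ := by group
          _ = a * (q * x' ^ k) * (x' ^ k)⁻¹ * a⁻¹ := by rw [e1]
          _ = a * q * a⁻¹ := by group
    rintro ⟨y, hy⟩ -
    obtain ⟨z, hz, e⟩ := h1 hy
    have : z = ⟨y, hy⟩ := Subtype.ext e
    rw [← this]
    exact hz
  · -- solvable
    refine Group.isSolvable_of_comm ?_
    intro a b
    apply Subtype.ext
    apply Subtype.ext
    push_cast
    rw [hker a, hker b]
    exact (Commute.zpow_zpow (Commute.refl x') _ _)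
  · let e := QuotientGroup.quotientKerEquivOfSurjective ψ hsurj
    have h1 := hW.rel.iso H (Y ⧸ ψ.ker) e.symm _ hR
    have h2 : ((Subgroup.zpowers c).subgroupOf H).map e.symm.toMonoidHom =
        ((Subgroup.zpowers (c * x')).subgroupOf Y).map (QuotientGroup.mk' ψ.ker) := by
      rw [WAlt1_subgroupOf_zpowers H c hc, WAlt1_subgroupOf_zpowers Y (c * x') hxY,
        MonoidHom.map_zpowers, MonoidHom.map_zpowers]
      congr 1
      show e.symm ⟨c, hc⟩ = _
      rw [MulEquiv.symm_apply_eq]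
      show _ = ψ ⟨c * x', hxY⟩
      exact hψx.symm
    rw [h2] at h1
    exact h1

/-! ## Embeddings `Perm (Fin m) → Perm (Fin n)` -/

theorem WAlt1_sign {m n : ℕ} (f : Fin m ↪ Fin n) (σ : Perm (Fin m)) :
    Equiv.Perm.sign (σ.viaEmbedding f) = Equiv.Perm.sign σ := by
  exact @Equiv.Perm.sign_extendDomain (Fin m) _ (Fin n) _ _ _ σ (fun l => l ∈ Set.range f)
    (fun l => Classical.propDecidable _) (Equiv.ofInjective f f.injective)

theorem WAlt1_trans {m n : ℕ} (f : Fin m ↪ Fin n) (g : Perm (Fin n)) (σ : Perm (Fin m)) :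
    σ.viaEmbedding (f.trans g.toEmbedding) = g * σ.viaEmbedding f * g⁻¹ := by
  ext l
  by_cases hl : l ∈ Set.range (f.trans g.toEmbedding)
  · obtain ⟨a, rfl⟩ := hl
    rw [viaEmbedding_apply]
    simp [viaEmbedding_apply]
  · rw [viaEmbedding_apply_of_notMem _ _ _ hl]
    have h2 : g⁻¹ l ∉ Set.range f := by
      rintro ⟨a, ha⟩
      exact hl ⟨a, by simp [ha]⟩
    rw [Perm.mul_apply, Perm.mul_apply, viaEmbedding_apply_of_notMem _ _ _ h2]
    simp

theorem WAlt1_isCycle {m n : ℕ} (f : Fin m ↪ Fin n) (σ : Perm (Fin m)) (h : σ.IsCycle) :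
    (σ.viaEmbedding f).IsCycle := by
  exact @Equiv.Perm.IsCycle.extendDomain (Fin m) (Fin n) σ (fun l => l ∈ Set.range f)
    (fun l => Classical.propDecidable _) (Equiv.ofInjective f f.injective) h

theorem WAlt1_support {m n : ℕ} (f : Fin m ↪ Fin n) (σ : Perm (Fin m)) :
    (σ.viaEmbedding f).support = σ.support.map f := by
  ext l
  rw [Finset.mem_map, Equiv.Perm.mem_support]
  constructor
  · intro h
    by_cases hl : l ∈ Set.range f
    · obtain ⟨a, rfl⟩ := hl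
      refine ⟨a, ?_, rfl⟩
      rw [viaEmbedding_apply] at h
      rw [Equiv.Perm.mem_support]
      intro h2
      exact h (by rw [h2])
    · exact absurd (viaEmbedding_apply_of_notMem _ _ _ hl) h
  · rintro ⟨a, ha, rfl⟩
    rw [viaEmbedding_apply]
    intro h2
    exact (Equiv.Perm.mem_support.1 ha) (f.injective h2)

theorem WAlt1_emb {m n p : ℕ} (hmn : m ≤ n) (c0 : Perm (Fin m)) (c : Perm (Fin n))
    (h0 : c0.IsCycle) (h : c.IsCycle) (hs0 : c0.support.card = p) (hs : c.support.card = p) :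
    ∃ f : Fin m ↪ Fin n, c0.viaEmbedding f = c := by
  have h1 := WAlt1_isCycle (Fin.castLEEmb hmn) c0 h0
  have h2 : (c0.viaEmbedding (Fin.castLEEmb hmn)).support.card = c.support.card := by
    rw [WAlt1_support, Finset.card_map, hs0, hs]
  obtain ⟨g, hg⟩ := isConj_iff.1 (h1.isConj h h2)
  exact ⟨(Fin.castLEEmb hmn).trans g.toEmbedding, by rw [WAlt1_trans, hg]⟩

theorem WAlt1_emb' {m n p : ℕ} (hmn : m ≤ n) (c0 : Perm (Fin m)) (c : Perm (Fin n))
    (h0 : c0.IsCycle) (h : c.IsCycle) (hs0 : c0.support.card = p) (hs : c.support.card = p)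
    (b : Fin m) (hb : b ∉ c0.support) (j : Fin n) (hj : j ∉ c.support) :
    ∃ f : Fin m ↪ Fin n, c0.viaEmbedding f = c ∧ f b = j := by
  obtain ⟨f, hf⟩ := WAlt1_emb hmn c0 c h0 h hs0 hs
  have hb' : f b ∉ c.support := by
    rw [← hf, WAlt1_support, Finset.mem_map]
    rintro ⟨a, ha, e⟩
    rw [f.injective e] at ha
    exact hb ha
  refine ⟨f.trans (Equiv.swap (f b) j).toEmbedding, ?_, by simp⟩
  rw [WAlt1_trans, hf]
  rw [Equiv.Perm.mem_support, not_not] at hb' hj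
  rw [mul_inv_eq_iff_eq_mul]
  ext l
  by_cases h1 : l = f b
  · subst h1
    simp [hb', hj]
  by_cases h2 : l = j
  · subst h2
    simp [hb', hj]
  have h3 : c l ≠ f b := fun e => h1 (c.injective (by rw [e, hb']))
  have h4 : c l ≠ j := fun e => h2 (c.injective (by rw [e, hj]))
  rw [Perm.mul_apply, Perm.mul_apply, Equiv.swap_apply_of_ne_of_ne h3 h4,
    Equiv.swap_apply_of_ne_of_ne h1 h2]

/-- the perm of `Fin m` from a perm that only moves points in the range of `f` -/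
theorem WAlt1_pull {m n : ℕ} (f : Fin m ↪ Fin n) (g : Perm (Fin n))
    (hg : ∀ l, l ∉ Set.range f → g l = l) : ∃ σ : Perm (Fin m), σ.viaEmbedding f = g := by
  have h1 : ∀ (g : Perm (Fin n)), (∀ l, l ∉ Set.range f → g l = l) → ∀ a, g (f a) ∈ Set.range f := by
    intro g hg a
    by_contra h
    have := hg _ h
    have h2 := g.injective this
    exact h (by rw [h2]; exact ⟨a, rfl⟩)
  have h1' : ∀ l, l ∉ Set.range f → g⁻¹ l = l := by
    intro l hl
    rw [Equiv.Perm.inv_eq_iff_eq, hg l hl]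
  choose u hu using h1 g hg
  choose v hv using h1 g⁻¹ h1'
  refine ⟨⟨u, v, ?_, ?_⟩, ?_⟩
  · intro a
    apply f.injective
    rw [hv, hu]
    simp
  · intro a
    apply f.injective
    rw [hu, hv]
    simp
  · ext l
    by_cases hl : l ∈ Set.range f
    · obtain ⟨a, rfl⟩ := hl
      rw [viaEmbedding_apply]
      exact congrArg Fin.val (hu a)
    · rw [viaEmbedding_apply_of_notMem _ _ _ hl, hg l hl]

/-! ## The cycle of `x` through `i` -/

structure WAlt1_Cyc {n : ℕ} (p : ℕ) (x : Perm (Fin n)) (i : Fin n) (c x' : Perm (Fin n)) :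
    Prop where
  mul : c * x' = x
  cyc : c.IsCycle
  card : c.support.card = p
  comm : c * x' = x' * c
  sup : ∀ l, l ∈ c.support ↔ ∃ m : ℕ, (x ^ m) i = l
  fix : ∀ l, l ∈ c.support → x' l = l
  fix' : ∀ l, l ∉ x.support → x' l = l
  mi : i ∈ c.support

theorem WAlt1_cyc {n p : ℕ} (hp : p.Prime) (x : Perm (Fin n)) (hx : orderOf x = p)
    (i : Fin n) (hi : i ∈ x.support) : ∃ c x' : Perm (Fin n), WAlt1_Cyc p x i c x' := by
  have hi' : x i ≠ i := Equiv.Perm.mem_support.1 hi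
  have hc : (x.cycleOf i).IsCycle := isCycle_cycleOf x hi'
  have hcard : (x.cycleOf i).support.card = p := by
    have h1 := orderOf_cycleOf_dvd_orderOf x i
    rw [hx] at h1
    have h2 := hc.orderOf
    rcases (Nat.dvd_prime hp).1 h1 with h3 | h3
    · exact absurd (orderOf_eq_one_iff.1 h3) hc.ne_one
    · rw [← h2, h3]
  have hsup : ∀ l, l ∈ (x.cycleOf i).support ↔ ∃ m : ℕ, (x ^ m) i = l := by
    intro l
    rw [mem_support_cycleOf_iff]
    constructor
    · rintro ⟨h1, -⟩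
      obtain ⟨m, -, h2⟩ := h1.exists_pow_eq'
      exact ⟨m, h2⟩
    · rintro ⟨m, hm⟩
      exact ⟨⟨m, by simpa using hm⟩, hi⟩
  have hdisj : Equiv.Perm.Disjoint (x.cycleOf i) ((x.cycleOf i)⁻¹ * x) := by
    intro l
    by_cases hl : SameCycle x i l
    · right
      rw [Perm.mul_apply, ← hl.cycleOf_apply]
      simp
    · left
      exact cycleOf_apply_of_not_sameCycle hl
  refine ⟨x.cycleOf i, (x.cycleOf i)⁻¹ * x, ⟨by group, hc, hcard, hdisj.commute, hsup, ?_, ?_, ?_⟩⟩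
  · intro l hl
    rcases hdisj l with h1 | h1
    · exact absurd h1 (Equiv.Perm.mem_support.1 hl)
    · exact h1
  · intro l hl
    have h1 : l ∉ (x.cycleOf i).support := by
      intro h2
      exact hl (support_cycleOf_le x i h2)
    rw [Equiv.Perm.mem_support, not_not] at h1 hl
    rw [Perm.mul_apply, hl, Equiv.Perm.inv_eq_iff_eq, h1]
  · exact (hsup i).2 ⟨0, by simp⟩

/-- the block for a subgroup `H` of `Perm (Fin m)` -/
theorem WAlt1_via {p : ℕ} [Fact p.Prime] {R : ∀ (G : Type) [Group G], Subgroup G → Prop}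
    (hW : WAx p R) {m n : ℕ} (x : Perm (Fin n)) (hx : orderOf x = p) (hxA : x ∈ alternatingGroup (Fin n))
    (Γ : Subgroup (Perm (Fin n)))
    (hΓ : ∀ H : Subgroup (Equiv.Perm (Fin n)), H ≤ alternatingGroup (Fin n) → x ∈ H →
      R H ((Subgroup.zpowers x).subgroupOf H) → H ≤ Γ)
    (i : Fin n) (c x' : Perm (Fin n)) (hc : WAlt1_Cyc p x i c x')
    (f : Fin m ↪ Fin n) (c0 : Perm (Fin m)) (hf : c0.viaEmbedding f = c)
    (hfx : ∀ a, x' (f a) = f a) (H : Subgroup (Perm (Fin m))) (hc0 : c0 ∈ H)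
    (hncl : nclIn H (Subgroup.zpowers c0) = H)
    (hR : R H ((Subgroup.zpowers c0).subgroupOf H)) :
    nclIn (H.map (viaEmbeddingHom f)) (Subgroup.zpowers x) ≤ Γ ∧
    (∀ σ ∈ H, ∃ k : ℤ, σ.viaEmbedding f * x' ^ k ∈
      nclIn (H.map (viaEmbeddingHom f)) (Subgroup.zpowers x)) ∧
    ∀ σ ∈ H, σ.viaEmbedding f * x' = x' * σ.viaEmbedding f := by
  have hcomm : ∀ σ : Perm (Fin m), σ.viaEmbedding f * x' = x' * σ.viaEmbedding f := by
    intro σ
    have : Equiv.Perm.Disjoint (σ.viaEmbedding f) x' := by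
      intro l
      by_cases hl : l ∈ Set.range f
      · obtain ⟨a, rfl⟩ := hl
        exact Or.inr (hfx a)
      · exact Or.inl (viaEmbedding_apply_of_notMem _ _ _ hl)
    exact this.commute
  have hxc : c * x' = x := hc.mul
  have hcH : c ∈ H.map (viaEmbeddingHom f) := ⟨c0, hc0, hf⟩
  have hcommH : ∀ h ∈ H.map (viaEmbeddingHom f), h * x' = x' * h := by
    rintro _ ⟨σ, -, rfl⟩
    exact hcomm σ
  have hnclH : nclIn (H.map (viaEmbeddingHom f)) (Subgroup.zpowers c) =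
      H.map (viaEmbeddingHom f) := by
    apply le_antisymm
    · refine (Subgroup.closure_le _).2 ?_
      rintro _ ⟨a, ha, q, hq, rfl⟩
      obtain ⟨k, rfl⟩ := Subgroup.mem_zpowers_iff.1 hq
      exact Subgroup.mul_mem _ (Subgroup.mul_mem _ ha (Subgroup.zpow_mem _ hcH k))
        (Subgroup.inv_mem _ ha)
    · rintro _ ⟨σ, hσ, rfl⟩
      have h1 : H ≤ (nclIn (H.map (viaEmbeddingHom f)) (Subgroup.zpowers c)).comap
          (viaEmbeddingHom f) := by
        conv_lhs => rw [← hncl]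
        refine (Subgroup.closure_le _).2 ?_
        rintro _ ⟨a, ha, q, hq, rfl⟩
        obtain ⟨k, rfl⟩ := Subgroup.mem_zpowers_iff.1 hq
        refine Subgroup.subset_closure ⟨viaEmbeddingHom f a, ⟨a, ha, rfl⟩, c ^ k,
          Subgroup.zpow_mem_zpowers c k, ?_⟩
        rw [map_mul, map_mul, map_inv, map_zpow]
        congr 2
        rw [← hf]
        rfl
      exact h1 hσ
  have hRH : R (H.map (viaEmbeddingHom f))
      ((Subgroup.zpowers c).subgroupOf (H.map (viaEmbeddingHom f))) := by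
    have h1 := hW.rel.iso H (H.map (viaEmbeddingHom f))
      (H.equivMapOfInjective (viaEmbeddingHom f) (viaEmbeddingHom_injective f)) _ hR
    have h2 : ((Subgroup.zpowers c0).subgroupOf H).map
        (H.equivMapOfInjective (viaEmbeddingHom f) (viaEmbeddingHom_injective f)).toMonoidHom =
        (Subgroup.zpowers c).subgroupOf (H.map (viaEmbeddingHom f)) := by
      rw [WAlt1_subgroupOf_zpowers H c0 hc0, WAlt1_subgroupOf_zpowers _ c hcH,
        MonoidHom.map_zpowers]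
      congr 1
      apply Subtype.ext
      exact hf
    rw [h2] at h1
    exact h1
  have hord : IsPGroup p (Subgroup.zpowers (c * x')) := by
    rw [hxc]
    refine IsPGroup.of_card (n := 1) ?_
    rw [Nat.card_zpowers, hx, pow_one]
  have hdis : ∀ k : ℤ, x' ^ k ∈ H.map (viaEmbeddingHom f) → x' ^ k = 1 := by
    rintro k ⟨σ, -, hσ⟩
    have hσ' : σ.viaEmbedding f = x' ^ k := hσ
    ext l
    by_cases hl : l ∈ Set.range f
    · obtain ⟨a, rfl⟩ := hl
      rw [zpow_apply_eq_self_of_apply_eq_self (hfx a)]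
      rfl
    · rw [← hσ', viaEmbedding_apply_of_notMem _ _ _ hl]
      rfl
  have hblk := WAlt1_block hW (H.map (viaEmbeddingHom f)) c x' hcH hcommH hord hdis hnclH hRH
  have hlift := WAlt1_lift (H.map (viaEmbeddingHom f)) c x' hcH hcommH hnclH
  rw [hxc] at hblk hlift
  refine ⟨?_, ?_, fun σ _ => hcomm σ⟩
  · refine hΓ _ ?_ ?_ hblk
    · refine (Subgroup.closure_le _).2 ?_
      rintro _ ⟨a, -, q, hq, rfl⟩
      obtain ⟨k, rfl⟩ := Subgroup.mem_zpowers_iff.1 hq
      exact (inferInstance : (alternatingGroup (Fin n)).Normal).conj_mem _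
        (Subgroup.zpow_mem _ hxA k) a
    · exact Subgroup.subset_closure ⟨1, Subgroup.one_mem _, x, Subgroup.mem_zpowers x, by simp⟩
  · intro σ hσ
    exact hlift _ ⟨σ, hσ, rfl⟩

theorem WAlt1_nclA {p : ℕ} (h5 : 5 ≤ p) (c0 : Perm (Fin p)) (hc0 : c0 ∈ alternatingGroup (Fin p))
    (hne : c0 ≠ 1) :
    nclIn (alternatingGroup (Fin p)) (Subgroup.zpowers c0) = alternatingGroup (Fin p) := by
  have hs : IsSimpleGroup (alternatingGroup (Fin p)) :=
    alternatingGroup.isSimpleGroup (by simpa using h5)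
  set M := nclIn (alternatingGroup (Fin p)) (Subgroup.zpowers c0) with hM
  have hMA : M ≤ alternatingGroup (Fin p) := by
    refine (Subgroup.closure_le _).2 ?_
    rintro _ ⟨a, ha, q, hq, rfl⟩
    obtain ⟨k, rfl⟩ := Subgroup.mem_zpowers_iff.1 hq
    exact Subgroup.mul_mem _ (Subgroup.mul_mem _ ha (Subgroup.zpow_mem _ hc0 k))
      (Subgroup.inv_mem _ ha)
  have hcM : c0 ∈ M := Subgroup.subset_closure ⟨1, Subgroup.one_mem _, c0,
    Subgroup.mem_zpowers c0, by simp⟩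
  have hnor : (M.subgroupOf (alternatingGroup (Fin p))).Normal := by
    constructor
    rintro ⟨y, hyA⟩ hy ⟨a, ha⟩
    rw [Subgroup.mem_subgroupOf] at hy ⊢
    have h1 : M ≤ M.comap (MulAut.conj a).toMonoidHom := by
      conv_lhs => rw [hM]
      refine (Subgroup.closure_le _).2 ?_
      rintro _ ⟨b, hb, q, hq, rfl⟩
      refine Subgroup.subset_closure ⟨a * b, Subgroup.mul_mem _ ha hb, q, hq, ?_⟩
      show a * (b * q * b⁻¹) * a⁻¹ = _
      group
    exact h1 hy
  rcases hnor.eq_bot_or_eq_top with h1 | h1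
  · exfalso
    have : (⟨c0, hc0⟩ : alternatingGroup (Fin p)) ∈ M.subgroupOf (alternatingGroup (Fin p)) := hcM
    rw [h1, Subgroup.mem_bot] at this
    exact hne (congrArg Subtype.val this)
  · rw [Subgroup.subgroupOf_eq_top] at h1
    exact le_antisymm hMA h1

theorem WAlt1_one {p : ℕ} [Fact p.Prime] (h5 : 5 ≤ p)
    {R : ∀ (G : Type) [Group G], Subgroup G → Prop}
    (hW : WAx p R) (hS : WSeed p R) {n : ℕ} (x : Perm (Fin n)) (hx : orderOf x = p)
    (hxA : x ∈ alternatingGroup (Fin n)) (Γ : Subgroup (Perm (Fin n)))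
    (hΓ : ∀ H : Subgroup (Equiv.Perm (Fin n)), H ≤ alternatingGroup (Fin n) → x ∈ H →
      R H ((Subgroup.zpowers x).subgroupOf H) → H ≤ Γ)
    (i : Fin n) (c x' : Perm (Fin n)) (hc : WAlt1_Cyc p x i c x') :
    (∀ g : Perm (Fin n), g ∈ alternatingGroup (Fin n) → (∀ l, g l ≠ l → l ∈ c.support) → g ∈ Γ) ∧
      x' ∈ Γ := by
  have hp : p.Prime := Fact.out
  have hpn : p ≤ n := by
    rw [← hc.card]
    simpa using Finset.card_le_univ c.support
  have h2 : 2 ≤ p := by omega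
  have hc0 : (finRotate p).IsCycle := isCycle_finRotate_of_le h2
  have hs0 : (finRotate p).support = Finset.univ := support_finRotate_of_le h2
  have hs0c : (finRotate p).support.card = p := by rw [hs0]; simp
  obtain ⟨f, hf⟩ := WAlt1_emb hpn (finRotate p) c hc0 hc.cyc hs0c hc.card
  have hodd : Odd p := hp.odd_of_ne_two (by omega)
  have hc0A : finRotate p ∈ alternatingGroup (Fin p) := by
    rw [mem_alternatingGroup, hc0.sign, hs0c, hodd.neg_one_pow]
    simp
  have hne : finRotate p ≠ 1 := hc0.ne_one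
  have hfr : ∀ l, l ∈ Set.range f ↔ l ∈ c.support := by
    intro l
    rw [← hf, WAlt1_support, hs0]
    simp
  have hfx : ∀ a, x' (f a) = f a := fun a => hc.fix _ ((hfr _).1 ⟨a, rfl⟩)
  have hncl := WAlt1_nclA h5 (finRotate p) hc0A hne
  have hR : R (alternatingGroup (Fin p))
      ((Subgroup.zpowers (finRotate p)).subgroupOf (alternatingGroup (Fin p))) := by
    rw [WAlt1_subgroupOf_zpowers _ _ hc0A]
    exact hS.ap ⟨finRotate p, hc0A⟩ hc0 hs0c
  obtain ⟨hY, hlift, hcomm⟩ := WAlt1_via hW x hx hxA Γ hΓ i c x' hc f (finRotate p) hf hfx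
    (alternatingGroup (Fin p)) hc0A hncl hR
  set Y := nclIn ((alternatingGroup (Fin p)).map (viaEmbeddingHom f)) (Subgroup.zpowers x) with hYd
  have hxY : x ∈ Y := Subgroup.subset_closure ⟨1, Subgroup.one_mem _, x,
    Subgroup.mem_zpowers x, by simp⟩
  -- the normal subgroup
  have hs : IsSimpleGroup (alternatingGroup (Fin p)) :=
    alternatingGroup.isSimpleGroup (by simpa using h5)
  have hK : ((Y.comap (viaEmbeddingHom f)).subgroupOf (alternatingGroup (Fin p))).Normal := by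
    constructor
    rintro ⟨y, hyA⟩ hy ⟨a, ha⟩
    rw [Subgroup.mem_subgroupOf, Subgroup.mem_comap] at hy ⊢
    obtain ⟨k, hk⟩ := hlift a ha
    have h1 := Y.mul_mem (Y.mul_mem hk hy) (Y.inv_mem hk)
    have h3 := WAlt1_comm_zpow (hcomm y hyA) k
    have h4 : a.viaEmbedding f * x' ^ k * (y.viaEmbedding f) * (a.viaEmbedding f * x' ^ k)⁻¹ =
        viaEmbeddingHom f (a * y * a⁻¹) := by
      have h5 : x' ^ k * y.viaEmbedding f = y.viaEmbedding f * x' ^ k := h3.symm
      calc a.viaEmbedding f * x' ^ k * (y.viaEmbedding f) * (a.viaEmbedding f * x' ^ k)⁻¹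
          = a.viaEmbedding f * (x' ^ k * y.viaEmbedding f) * (x' ^ k)⁻¹ *
            (a.viaEmbedding f)⁻¹ := by group
        _ = a.viaEmbedding f * y.viaEmbedding f * (a.viaEmbedding f)⁻¹ := by
            rw [h5]
            group
        _ = viaEmbeddingHom f (a * y * a⁻¹) := by
            rw [map_mul, map_mul, map_inv]
            rfl
    have h6 : a.viaEmbedding f * x' ^ k * (viaEmbeddingHom f y) * (a.viaEmbedding f * x' ^ k)⁻¹
        ∈ Y := h1
    have h7 : viaEmbeddingHom f (a * y * a⁻¹) ∈ Y := by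
      rw [← h4]
      exact h6
    exact h7
  have htop : (Y.comap (viaEmbeddingHom f)).subgroupOf (alternatingGroup (Fin p)) = ⊤ := by
    refine hK.eq_bot_or_eq_top.resolve_left ?_
    intro hbot
    have hall : ∀ a ∈ alternatingGroup (Fin p), a * finRotate p = finRotate p * a := by
      intro a ha
      have h1 : a.viaEmbedding f * x * (a.viaEmbedding f)⁻¹ ∈ Y :=
        Subgroup.subset_closure ⟨a.viaEmbedding f, ⟨a, ha, rfl⟩, x, Subgroup.mem_zpowers x, rfl⟩
      have h3 := Y.mul_mem h1 (Y.inv_mem hxY)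
      have h4 : a.viaEmbedding f * x * (a.viaEmbedding f)⁻¹ * x⁻¹ =
          viaEmbeddingHom f (a * finRotate p * a⁻¹ * (finRotate p)⁻¹) := by
        have h5 := hcomm a⁻¹ (Subgroup.inv_mem _ ha)
        have h6 : a⁻¹.viaEmbedding f = (a.viaEmbedding f)⁻¹ := map_inv (viaEmbeddingHom f) a
        rw [h6] at h5
        rw [map_mul, map_mul, map_mul, map_inv, map_inv]
        have h8 : viaEmbeddingHom f (finRotate p) = c := hf
        have h9 : viaEmbeddingHom f a = a.viaEmbedding f := rfl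
        rw [h8, h9, ← hc.mul]
        calc a.viaEmbedding f * (c * x') * (a.viaEmbedding f)⁻¹ * (c * x')⁻¹
            = a.viaEmbedding f * c * (x' * (a.viaEmbedding f)⁻¹) * x'⁻¹ * c⁻¹ := by group
          _ = a.viaEmbedding f * c * ((a.viaEmbedding f)⁻¹ * x') * x'⁻¹ * c⁻¹ := by rw [h5]
          _ = a.viaEmbedding f * c * (a.viaEmbedding f)⁻¹ * c⁻¹ := by group
      rw [h4] at h3
      have h5 : (⟨a * finRotate p * a⁻¹ * (finRotate p)⁻¹,
          Subgroup.mul_mem _ (Subgroup.mul_mem _ (Subgroup.mul_mem _ ha hc0A)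
            (Subgroup.inv_mem _ ha)) (Subgroup.inv_mem _ hc0A)⟩ : alternatingGroup (Fin p)) ∈
          (Y.comap (viaEmbeddingHom f)).subgroupOf (alternatingGroup (Fin p)) := h3
      rw [hbot, Subgroup.mem_bot] at h5
      have h6 : a * finRotate p * a⁻¹ * (finRotate p)⁻¹ = 1 := congrArg Subtype.val h5
      rw [mul_inv_eq_one, mul_inv_eq_iff_eq_mul] at h6
      exact h6
    have hcen : (⟨finRotate p, hc0A⟩ : alternatingGroup (Fin p)) ∈
        Subgroup.center (alternatingGroup (Fin p)) := by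
      rw [Subgroup.mem_center_iff]
      intro a
      apply Subtype.ext
      exact hall a a.2
    rw [alternatingGroup.center_eq_bot (by simp; omega), Subgroup.mem_bot] at hcen
    exact hne (congrArg Subtype.val hcen)
  have hAY : ∀ σ ∈ alternatingGroup (Fin p), σ.viaEmbedding f ∈ Γ := by
    intro σ hσ
    rw [Subgroup.subgroupOf_eq_top] at htop
    exact hY (htop hσ)
  have hcΓ : c ∈ Γ := by
    rw [← hf]
    exact hAY _ hc0A
  refine ⟨?_, ?_⟩
  · intro g hgA hg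
    obtain ⟨σ, hσ⟩ := WAlt1_pull f g (by
      intro l hl
      by_contra h
      exact hl ((hfr l).2 (hg l h)))
    rw [← hσ]
    refine hAY σ ?_
    rw [mem_alternatingGroup] at hgA ⊢
    rw [← WAlt1_sign f, hσ, hgA]
  · have h1 : x' = c⁻¹ * x := by
      rw [← hc.mul]
      group
    rw [h1]
    exact Γ.mul_mem (Γ.inv_mem hcΓ) (hY hxY)

theorem WAlt1_two {p : ℕ} [Fact p.Prime]
    {R : ∀ (G : Type) [Group G], Subgroup G → Prop}
    (hW : WAx p R) (hS : WSeed p R) {n : ℕ} (x : Perm (Fin n)) (hx : orderOf x = p)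
    (hxA : x ∈ alternatingGroup (Fin n)) (Γ : Subgroup (Perm (Fin n)))
    (hΓ : ∀ H : Subgroup (Equiv.Perm (Fin n)), H ≤ alternatingGroup (Fin n) → x ∈ H →
      R H ((Subgroup.zpowers x).subgroupOf H) → H ≤ Γ)
    (i : Fin n) (c x' : Perm (Fin n)) (hc : WAlt1_Cyc p x i c x') (j : Fin n)
    (hj : j ∉ x.support) (hjc : j ∉ c.support) (hx'Γ : x' ∈ Γ) :
    ∃ h ∈ Γ, h i = j ∧ ∀ l, h l ≠ l → l = j ∨ l ∈ c.support := by
  have hpn : p + 1 ≤ n := by
    have h1 := Finset.card_le_univ (insert j c.support)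
    rw [Finset.card_insert_of_notMem hjc, hc.card] at h1
    simpa using h1
  obtain ⟨H, x1, hcyc, hcard, hxH, hHA, htr, hncl, hR⟩ := hS.ap1
  obtain ⟨b, hb⟩ : ∃ b, b ∉ x1.support := by
    by_contra h
    push Not at h
    have h1 : x1.support = Finset.univ := Finset.eq_univ_of_forall h
    rw [h1] at hcard
    simp at hcard
  have hbu : ∀ a, a ∉ x1.support → a = b := by
    intro a ha
    by_contra hab
    have h1 := Finset.card_le_univ (insert a (insert b x1.support))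
    rw [Finset.card_insert_of_notMem, Finset.card_insert_of_notMem hb, hcard] at h1
    · simp at h1
    · simp only [Finset.mem_insert, not_or]
      exact ⟨hab, ha⟩
  obtain ⟨f, hf, hfb⟩ := WAlt1_emb' hpn x1 c hcyc hc.cyc hcard hc.card b hb j hjc
  have hsup : ∀ a, a ∈ x1.support → f a ∈ c.support := by
    intro a ha
    rw [← hf, WAlt1_support]
    exact Finset.mem_map_of_mem _ ha
  have hfr : ∀ a, f a = j ∨ f a ∈ c.support := by
    intro a
    by_cases ha : a ∈ x1.support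
    · exact Or.inr (hsup a ha)
    · left
      rw [hbu a ha, hfb]
  have hfx : ∀ a, x' (f a) = f a := by
    intro a
    rcases hfr a with h1 | h1
    · rw [h1]
      exact hc.fix' j hj
    · exact hc.fix _ h1
  obtain ⟨hY, hlift, hcomm⟩ := WAlt1_via hW x hx hxA Γ hΓ i c x' hc f x1 hf hfx H hxH hncl hR
  have hi : i ∈ c.support := hc.mi
  rw [← hf, WAlt1_support, Finset.mem_map] at hi
  obtain ⟨a, -, ha⟩ := hi
  obtain ⟨h, hhH, hh⟩ := htr a b
  refine ⟨h.viaEmbedding f, ?_, ?_, ?_⟩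
  · obtain ⟨k, hk⟩ := hlift h hhH
    have h1 := Γ.mul_mem (hY hk) (Γ.inv_mem (Γ.zpow_mem hx'Γ k))
    simpa [mul_assoc] using h1
  · rw [← ha, viaEmbedding_apply, hh, hfb]
  · intro l hl
    by_cases hlr : l ∈ Set.range f
    · obtain ⟨a', rfl⟩ := hlr
      exact hfr a'
    · exact absurd (viaEmbedding_apply_of_notMem _ _ _ hlr) hl

/-! ## The solvable block -/

theorem WAlt1_nc {Q : Type} [Group Q] (B P : Subgroup Q) (h : nclIn B P = B) (hPB : P ≤ B) :
    Subgroup.normalClosure ((P.subgroupOf B : Subgroup B) : Set B) = ⊤ := by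
  rw [eq_top_iff]
  have h1 : nclIn B P ≤ (Subgroup.normalClosure
      ((P.subgroupOf B : Subgroup B) : Set B)).map B.subtype := by
    refine (Subgroup.closure_le _).2 ?_
    rintro _ ⟨a, ha, q, hq, rfl⟩
    refine ⟨(⟨a, ha⟩ : B) * (⟨q, hPB hq⟩ : B) * (⟨a, ha⟩ : B)⁻¹, ?_, rfl⟩
    have hq' : (⟨q, hPB hq⟩ : B) ∈ P.subgroupOf B := hq
    exact Subgroup.normalClosure_normal.conj_mem _ (Subgroup.subset_normalClosure hq') _
  rw [h] at h1
  rintro ⟨y, hy⟩ -
  obtain ⟨z, hz, e⟩ := h1 hy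
  have : z = ⟨y, hy⟩ := Subtype.ext e
  rw [← this]
  exact hz

theorem WAlt1_sup {Q : Type} [Group Q] (E P : Subgroup Q)
    (hn : ∀ q ∈ P, ∀ e ∈ E, q * e * q⁻¹ ∈ E) : ∀ b ∈ E ⊔ P, ∃ e ∈ E, ∃ q ∈ P, b = e * q := by
  intro b hb
  rw [Subgroup.sup_eq_closure] at hb
  refine Subgroup.closure_induction (p := fun b _ => ∃ e ∈ E, ∃ q ∈ P, b = e * q) ?_ ?_ ?_ ?_ hb
  · rintro b (h | h)
    · exact ⟨b, h, 1, P.one_mem, by simp⟩
    · exact ⟨1, E.one_mem, b, h, by simp⟩
  · exact ⟨1, E.one_mem, 1, P.one_mem, by simp⟩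
  · rintro _ _ - - ⟨e1, h1, q1, m1, rfl⟩ ⟨e2, h2, q2, m2, rfl⟩
    exact ⟨e1 * (q1 * e2 * q1⁻¹), E.mul_mem h1 (hn q1 m1 e2 h2), q1 * q2, P.mul_mem m1 m2,
      by group⟩
  · rintro _ - ⟨e1, h1, q1, m1, rfl⟩
    refine ⟨q1⁻¹ * e1⁻¹ * (q1⁻¹)⁻¹, hn _ (P.inv_mem m1) _ (E.inv_mem h1), q1⁻¹, P.inv_mem m1, ?_⟩
    group

theorem WAlt1_solv {p : ℕ} [Fact p.Prime] {R : ∀ (G : Type) [Group G], Subgroup G → Prop}
    (hW : WAx p R) {Q : Type} [Group Q] [Finite Q] (E P : Subgroup Q)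
    (hn : ∀ q ∈ P, ∀ e ∈ E, q * e * q⁻¹ ∈ E) (hE : ∀ a ∈ E, ∀ b ∈ E, a * b = b * a)
    (hP : IsPGroup p P) (hpE : ¬ p ∣ Nat.card E) :
    P ≤ nclIn (E ⊔ P) P ∧ R (nclIn (E ⊔ P) P) (P.subgroupOf (nclIn (E ⊔ P) P)) := by
  set B := nclIn (E ⊔ P) P with hB
  have hPB : P ≤ B := fun q hq => Subgroup.subset_closure ⟨1, Subgroup.one_mem _, q, hq, by simp⟩
  have hBB : nclIn B P = B := (all_GCop p Q E P hpE hP hn).2.1
  have hBle : B ≤ E ⊔ P := by
    refine (Subgroup.closure_le _).2 ?_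
    rintro _ ⟨a, ha, q, hq, rfl⟩
    exact Subgroup.mul_mem _ (Subgroup.mul_mem _ ha (le_sup_right (a := E) hq))
      (Subgroup.inv_mem _ ha)
  have hform := WAlt1_sup E P hn
  have hnor : (E.subgroupOf B).Normal := by
    constructor
    rintro ⟨e, heB⟩ he ⟨b, hb⟩
    rw [Subgroup.mem_subgroupOf] at he ⊢
    obtain ⟨e1, h1, q1, m1, rfl⟩ := hform b (hBle hb)
    have h2 := E.mul_mem (E.mul_mem h1 (hn q1 m1 e he)) (E.inv_mem h1)
    have h3 : e1 * (q1 * e * q1⁻¹) * e1⁻¹ = e1 * q1 * e * (e1 * q1)⁻¹ := by group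
    rw [h3] at h2
    exact h2
  have htop : (P.subgroupOf B).map (QuotientGroup.mk' (E.subgroupOf B)) = ⊤ := by
    rw [eq_top_iff]
    rintro y -
    obtain ⟨⟨b, hb⟩, rfl⟩ := QuotientGroup.mk'_surjective (E.subgroupOf B) y
    obtain ⟨e1, h1, q1, m1, rfl⟩ := hform b (hBle hb)
    refine ⟨⟨q1, hPB m1⟩, m1, ?_⟩
    rw [QuotientGroup.mk'_eq_mk']
    have h2 := hn q1⁻¹ (P.inv_mem m1) e1 h1
    refine ⟨⟨q1⁻¹ * e1 * (q1⁻¹)⁻¹, ?_⟩, h2, ?_⟩
    · have h3 : q1⁻¹ * e1 * (q1⁻¹)⁻¹ = q1⁻¹ * (e1 * q1) := by group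
      rw [h3]
      exact B.mul_mem (B.inv_mem (hPB m1)) hb
    · apply Subtype.ext
      show q1 * (q1⁻¹ * e1 * (q1⁻¹)⁻¹) = e1 * q1
      group
  have hPP : IsPGroup p (P.subgroupOf B) := hP.comap_of_injective B.subtype B.subtype_injective
  refine ⟨hPB, hW.solv B _ (E.subgroupOf B) hPP (WAlt1_nc B P hBB hPB) ?_ ?_⟩
  · refine Group.isSolvable_of_comm ?_
    intro a b
    apply Subtype.ext
    apply Subtype.ext
    exact hE _ a.2 _ b.2
  · rw [htop]
    refine hW.rel.pgr _ ?_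
    have h1 := hPP.map (QuotientGroup.mk' (E.subgroupOf B))
    rw [htop] at h1
    exact h1.of_surjective (Subgroup.topEquiv (G := B ⧸ E.subgroupOf B)).toMonoidHom
      (Subgroup.topEquiv (G := B ⧸ E.subgroupOf B)).surjective

theorem WAlt1_three {p : ℕ} [Fact p.Prime] (h5 : 5 ≤ p)
    {R : ∀ (G : Type) [Group G], Subgroup G → Prop}
    (hW : WAx p R) {n : ℕ} (x : Perm (Fin n)) (hx : orderOf x = p)
    (hxA : x ∈ alternatingGroup (Fin n)) (Γ : Subgroup (Perm (Fin n)))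
    (hΓ : ∀ H : Subgroup (Equiv.Perm (Fin n)), H ≤ alternatingGroup (Fin n) → x ∈ H →
      R H ((Subgroup.zpowers x).subgroupOf H) → H ≤ Γ)
    (i j : Fin n) (hi : i ∈ x.support) (hj : j ∈ x.support) (hij : ∀ m : ℕ, (x ^ m) i ≠ j) :
    Equiv.swap i j * Equiv.swap (x i) (x j) ∈ Γ := by
  have hp : p.Prime := Fact.out
  have hxp : x ^ p = 1 := by rw [← hx]; exact pow_orderOf_eq_one x
  -- powers
  have hpow : ∀ l ∈ x.support, ∀ m k : ℕ, (x ^ m) l = (x ^ k) l → x ^ m = x ^ k := by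
    intro l hl m k e
    obtain ⟨c, x', hc⟩ := WAlt1_cyc hp x hx l hl
    have hcl : ∀ m : ℕ, (c ^ m) l = (x ^ m) l := by
      intro m
      rw [← hc.mul, (show Commute c x' from hc.comm).mul_pow, Perm.mul_apply,
        pow_apply_eq_self_of_apply_eq_self (hc.fix l hc.mi)]
    have h1 : c ^ m = c ^ k := by
      rw [hc.cyc.pow_eq_pow_iff]
      exact ⟨l, Equiv.Perm.mem_support.1 hc.mi, by rw [hcl, hcl, e]⟩
    rw [pow_eq_pow_iff_modEq] at h1 ⊢
    rw [hc.cyc.orderOf, hc.card] at h1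
    rw [hx]
    exact h1
  have hne : ∀ m k : ℕ, (x ^ m) i ≠ (x ^ k) j := by
    intro m k e
    apply hij ((p - 1) * k + m)
    rw [pow_add, Perm.mul_apply, e, ← Perm.mul_apply, ← pow_add]
    have : (p - 1) * k + k = p * k := by
      have := hp.one_lt
      obtain ⟨q, rfl⟩ : ∃ q, p = q + 1 := ⟨p - 1, by omega⟩
      simp [add_mul]
    rw [this, pow_mul, hxp, one_pow]
    rfl
  let s : ℕ → Perm (Fin n) := fun m => Equiv.swap ((x ^ m) i) ((x ^ m) j)
  have hs0 : s 0 = Equiv.swap i j := by simp [s]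
  have hs1 : s 1 = Equiv.swap (x i) (x j) := by simp [s]
  have hcomm : ∀ m k, s m * s k = s k * s m := by
    intro m k
    by_cases h1 : (x ^ m) i = (x ^ k) i
    · have h2 := hpow i hi m k h1
      show Equiv.swap ((x ^ m) i) ((x ^ m) j) * Equiv.swap ((x ^ k) i) ((x ^ k) j) =
        Equiv.swap ((x ^ k) i) ((x ^ k) j) * Equiv.swap ((x ^ m) i) ((x ^ m) j)
      rw [h2]
    by_cases h1' : (x ^ m) j = (x ^ k) j
    · have h2 := hpow j hj m k h1'
      show Equiv.swap ((x ^ m) i) ((x ^ m) j) * Equiv.swap ((x ^ k) i) ((x ^ k) j) =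
        Equiv.swap ((x ^ k) i) ((x ^ k) j) * Equiv.swap ((x ^ m) i) ((x ^ m) j)
      rw [h2]
    have : Equiv.Perm.Disjoint (s m) (s k) := by
      apply Equiv.Perm.disjoint_swap_swap
      simp only [List.nodup_cons, List.mem_cons, List.not_mem_nil, or_false, not_or,
        not_false_eq_true, List.nodup_nil, and_true]
      exact ⟨⟨hne m m, h1, hne m k⟩, ⟨fun e => hne k m e.symm, h1'⟩, hne k k⟩
    exact this.commute
  have hsx : ∀ k m, x ^ k * s m * (x ^ k)⁻¹ = s (k + m) := by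
    intro k m
    show x ^ k * Equiv.swap ((x ^ m) i) ((x ^ m) j) * (x ^ k)⁻¹ =
      Equiv.swap ((x ^ (k + m)) i) ((x ^ (k + m)) j)
    rw [pow_add, Perm.mul_apply, Perm.mul_apply]
    exact (Equiv.swap_apply_apply (x ^ k) ((x ^ m) i) ((x ^ m) j)).symm
  set S : Set (Perm (Fin n)) := {g | ∃ m, g = s m} with hS
  set E := Subgroup.closure S with hE
  have hEcomm : ∀ a ∈ E, ∀ b ∈ E, a * b = b * a := by
    have h1 : E ≤ Subgroup.centralizer S := by
      rw [hE, Subgroup.closure_le]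
      rintro _ ⟨m, rfl⟩
      show s m ∈ Subgroup.centralizer S
      rw [Subgroup.mem_centralizer_iff]
      rintro _ ⟨k, rfl⟩
      exact hcomm k m
    have h2 : E ≤ Subgroup.centralizer (E : Set (Perm (Fin n))) := by
      conv_lhs => rw [hE]
      rw [Subgroup.closure_le]
      intro g hg
      show g ∈ Subgroup.centralizer (E : Set (Perm (Fin n)))
      rw [Subgroup.mem_centralizer_iff]
      intro a ha
      exact ((Subgroup.mem_centralizer_iff.1 (h1 ha)) g hg).symm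
    intro a ha b hb
    exact ((Subgroup.mem_centralizer_iff.1 (h2 ha)) b hb).symm
  have hEsq : ∀ a ∈ E, a ^ 2 = 1 := by
    intro a ha
    refine Subgroup.closure_induction (p := fun a _ => a ^ 2 = 1) ?_ ?_ ?_ ?_ ha
    · rintro _ ⟨m, rfl⟩
      rw [sq]
      exact Equiv.swap_mul_self _ _
    · exact one_pow 2
    · intro a b ha hb h1 h2
      rw [(show Commute a b from hEcomm a ha b hb).mul_pow, h1, h2, one_mul]
    · intro a ha h1
      rw [inv_pow, h1, inv_one]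
  have hpE : ¬ p ∣ Nat.card E := by
    intro hd
    obtain ⟨a, ha⟩ := exists_prime_orderOf_dvd_card' p hd
    have h1 : a ^ 2 = 1 := Subtype.ext (hEsq a a.2)
    have h2 := orderOf_dvd_of_pow_eq_one h1
    rw [ha] at h2
    have := Nat.le_of_dvd (by norm_num) h2
    omega
  have hn : ∀ q ∈ Subgroup.zpowers x, ∀ e ∈ E, q * e * q⁻¹ ∈ E := by
    intro q hq e he
    obtain ⟨k, rfl⟩ : ∃ k : ℕ, x ^ k = q := by
      rw [← mem_powers_iff_mem_zpowers] at hq
      exact hq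
    have h1 : E ≤ E.comap (MulAut.conj (x ^ k)).toMonoidHom := by
      conv_lhs => rw [hE]
      rw [Subgroup.closure_le]
      rintro _ ⟨m, rfl⟩
      show x ^ k * s m * (x ^ k)⁻¹ ∈ E
      rw [hsx]
      exact Subgroup.subset_closure ⟨_, rfl⟩
    exact h1 he
  have hPx : IsPGroup p (Subgroup.zpowers x) := by
    refine IsPGroup.of_card (n := 1) ?_
    rw [Nat.card_zpowers, hx, pow_one]
  obtain ⟨hPB, hRB⟩ := WAlt1_solv hW E (Subgroup.zpowers x) hn hEcomm hPx hpE
  have hxB := hPB (Subgroup.mem_zpowers x)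
  have hB := hΓ _ ?_ hxB hRB
  · rw [← hs0, ← hs1]
    have h0 : s 0 ∈ E := Subgroup.subset_closure ⟨0, rfl⟩
    have h1 : s 0 * x * (s 0)⁻¹ ∈ nclIn (E ⊔ Subgroup.zpowers x) (Subgroup.zpowers x) :=
      Subgroup.subset_closure ⟨s 0, (le_sup_left (b := Subgroup.zpowers x) h0), x,
        Subgroup.mem_zpowers x, rfl⟩
    have h2 := Subgroup.mul_mem _ h1 (Subgroup.inv_mem _ hxB)
    have h3 : s 0 * x * (s 0)⁻¹ * x⁻¹ = s 0 * s 1 := by
      have h4 := hsx 1 0
      rw [pow_one] at h4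
      have h5 : (s 0)⁻¹ = s 0 := Equiv.swap_inv _ _
      rw [h5]
      calc s 0 * x * s 0 * x⁻¹ = s 0 * (x * s 0 * x⁻¹) := by group
        _ = s 0 * s 1 := by rw [h4]
    rw [h3] at h2
    exact hB h2
  · refine (Subgroup.closure_le _).2 ?_
    rintro _ ⟨a, -, q, hq, rfl⟩
    obtain ⟨k, rfl⟩ := Subgroup.mem_zpowers_iff.1 hq
    exact (inferInstance : (alternatingGroup (Fin n)).Normal).conj_mem _
      (Subgroup.zpow_mem _ hxA k) a

theorem prf_WAlt1 : WAlt1 := by
  intro p _ h5 R hW hS n x hx Γ hΓ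
  have hp : p.Prime := Fact.out
  have hxA : x ∈ alternatingGroup (Fin n) := by
    rw [mem_alternatingGroup]
    have hodd : Odd p := hp.odd_of_ne_two (by omega)
    have h1 : (Equiv.Perm.sign x) ^ p = 1 := by
      rw [← map_pow, ← hx, pow_orderOf_eq_one, map_one]
    rcases Int.units_eq_one_or (Equiv.Perm.sign x) with h2 | h2
    · exact h2
    · rw [h2, hodd.neg_one_pow] at h1
      exact absurd h1 (by decide)
  refine ⟨?_, ?_, ?_⟩
  · intro i hi g hg hgs
    obtain ⟨c, x', hc⟩ := WAlt1_cyc hp x hx i hi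
    refine (WAlt1_one h5 hW hS x hx hxA Γ hΓ i c x' hc).1 g hg.mem_alternatingGroup ?_
    intro l hl
    exact (hc.sup l).2 (hgs l hl)
  · intro i hi j hj
    obtain ⟨c, x', hc⟩ := WAlt1_cyc hp x hx i hi
    have h1 := (WAlt1_one h5 hW hS x hx hxA Γ hΓ i c x' hc).2
    have hjc : j ∉ c.support := by
      intro h2
      rw [Equiv.Perm.mem_support, not_not] at hj
      have h3 := hc.fix j h2
      have h4 : c j = j := by
        have h5 : x j = c j := by
          rw [← hc.mul, Perm.mul_apply, h3]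
        rw [← h5, hj]
      exact (Equiv.Perm.mem_support.1 h2) h4
    obtain ⟨h, hh, h2, h3⟩ := WAlt1_two hW hS x hx hxA Γ hΓ i c x' hc j hj hjc h1
    refine ⟨h, hh, h2, ?_⟩
    intro l hl
    rcases h3 l hl with h4 | h4
    · exact Or.inl h4
    · exact Or.inr ((hc.sup l).1 h4)
  · intro i hi j hj hij
    have h1 := WAlt1_three h5 hW x hx hxA Γ hΓ i j hi hj hij
    have hi' : x i ≠ i := Equiv.Perm.mem_support.1 hi
    have hj' : x j ≠ j := Equiv.Perm.mem_support.1 hj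
    have h2 : i ≠ j := by simpa using hij 0
    have h3 : x i ≠ j := by simpa using hij 1
    have h4 : x j ≠ i := by
      intro e
      apply hij (p - 1)
      have h5 : (x ^ (p - 1)) (x j) = (x ^ p) j := by
        rw [← Perm.mul_apply, ← pow_succ]
        congr 2
        have := hp.one_lt
        omega
      rw [← e, h5, ← hx, pow_orderOf_eq_one]
      rfl
    have h5' : x i ≠ x j := fun e => h2 (x.injective e)
    refine ⟨_, h1, ?_, ?_, ?_, ?_, ?_⟩
    · rw [Perm.mul_apply, Equiv.swap_apply_of_ne_of_ne hi'.symm h4.symm, Equiv.swap_apply_left]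
    · rw [Perm.mul_apply, Equiv.swap_apply_of_ne_of_ne h3.symm hj'.symm, Equiv.swap_apply_right]
    · rw [Perm.mul_apply, Equiv.swap_apply_left, Equiv.swap_apply_of_ne_of_ne h4 hj']
    · rw [Perm.mul_apply, Equiv.swap_apply_right, Equiv.swap_apply_of_ne_of_ne hi' h3]
    · intro l hl
      by_contra hcon
      push Not at hcon
      obtain ⟨a1, a2, a3, a4⟩ := hcon
      apply hl
      rw [Perm.mul_apply, Equiv.swap_apply_of_ne_of_ne a3 a4, Equiv.swap_apply_of_ne_of_ne a1 a2]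

end MP7b0bad.MW
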