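import Pool.Agent.Work.MP_7b0bad_ag.MW.Stmts

set_option autoImplicit false

/-!
# Item WAlt2: a permutation group that contains the alternating group
-/

namespace MP7b0bad.MW

open Equiv

variable {n : ℕ}

/-- the 3-cycle `a ↦ b ↦ c ↦ a` -/
def WAlt2_tri (a b c : Fin n) : Equiv.Perm (Fin n) := swap a b * swap b c

theorem WAlt2_conj (h : Equiv.Perm (Fin n)) (a b c : Fin n) :
    h * WAlt2_tri a b c * h⁻¹ = WAlt2_tri (h a) (h b) (h c) := by
  have h1 : ∀ y z : Fin n, h * swap y z = swap (h y) (h z) * h := fun y z =>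
    Equiv.mul_swap_eq_swap_mul h y z
  unfold WAlt2_tri
  rw [← mul_assoc, h1, mul_assoc (swap (h a) (h b)), h1, mul_assoc, mul_assoc, mul_inv_cancel,
    mul_one]

theorem WAlt2_inv (a b c : Fin n) : (WAlt2_tri a b c)⁻¹ = WAlt2_tri c b a := by
  unfold WAlt2_tri
  rw [mul_inv_rev, swap_inv, swap_inv, swap_comm b c, swap_comm a b]

theorem WAlt2_rot (a b c : Fin n) (hab : a ≠ b) (hac : a ≠ c) :
    WAlt2_tri a b c = WAlt2_tri b c a := by
  unfold WAlt2_tri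
  have h1 := Equiv.mul_swap_eq_swap_mul (swap b c) c a
  rw [h1, swap_apply_right, swap_apply_of_ne_of_ne hab hac, swap_comm b a]

theorem WAlt2_ap1 (a b c : Fin n) (hab : a ≠ b) (hac : a ≠ c) : WAlt2_tri a b c a = b := by
  unfold WAlt2_tri
  rw [Perm.mul_apply, swap_apply_of_ne_of_ne hab hac, swap_apply_left]

theorem WAlt2_ap2 (a b c : Fin n) (hac : a ≠ c) (hbc : b ≠ c) : WAlt2_tri a b c b = c := by
  unfold WAlt2_tri
  rw [Perm.mul_apply, swap_apply_left, swap_apply_of_ne_of_ne hac.symm hbc.symm]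

theorem WAlt2_ap3 (a b c : Fin n) : WAlt2_tri a b c c = a := by
  unfold WAlt2_tri
  rw [Perm.mul_apply, swap_apply_right, swap_apply_right]

theorem WAlt2_ap4 (a b c d : Fin n) (ha : d ≠ a) (hb : d ≠ b) (hc : d ≠ c) :
    WAlt2_tri a b c d = d := by
  unfold WAlt2_tri
  rw [Perm.mul_apply, swap_apply_of_ne_of_ne hb hc, swap_apply_of_ne_of_ne ha hb]

/-- all 3-cycles supported in `S` are in `Γ` -/
def WAlt2_good (Γ : Subgroup (Equiv.Perm (Fin n))) (S : Set (Fin n)) : Prop :=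
  ∀ a b c, a ∈ S → b ∈ S → c ∈ S → a ≠ b → a ≠ c → b ≠ c → WAlt2_tri a b c ∈ Γ

theorem WAlt2_gen (Γ : Subgroup (Equiv.Perm (Fin n))) (u v : Fin n) (huv : u ≠ v) :
    WAlt2_good Γ {c | c = u ∨ c = v ∨ WAlt2_tri u v c ∈ Γ} := by
  -- rotations and inverses
  have hrot : ∀ a b c : Fin n, a ≠ b → a ≠ c → WAlt2_tri a b c ∈ Γ → WAlt2_tri b c a ∈ Γ := by
    intro a b c h1 h2 h3
    rwa [← WAlt2_rot a b c h1 h2]
  have hrev : ∀ a b c : Fin n, WAlt2_tri a b c ∈ Γ → WAlt2_tri c b a ∈ Γ := by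
    intro a b c h3
    rw [← WAlt2_inv]
    exact Γ.inv_mem h3
  have hcj : ∀ (h : Equiv.Perm (Fin n)) (a b c : Fin n), h ∈ Γ → WAlt2_tri a b c ∈ Γ →
      WAlt2_tri (h a) (h b) (h c) ∈ Γ := by
    intro h a b c hh h3
    rw [← WAlt2_conj]
    exact Γ.mul_mem (Γ.mul_mem hh h3) (Γ.inv_mem hh)
  -- two points outside
  have hF1 : ∀ a b : Fin n, a ≠ u → a ≠ v → b ≠ u → b ≠ v → a ≠ b → WAlt2_tri u v a ∈ Γ →
      WAlt2_tri u v b ∈ Γ → WAlt2_tri v a b ∈ Γ := by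
    intro a b hau hav hbu hbv hab ha hb
    have h1 := hcj _ _ _ _ ha hb
    rwa [WAlt2_ap1 _ _ _ huv hau.symm, WAlt2_ap2 _ _ _ hau.symm hav.symm,
      WAlt2_ap4 _ _ _ _ hbu hbv hab.symm] at h1
  have hF2 : ∀ a b : Fin n, a ≠ u → a ≠ v → b ≠ u → b ≠ v → a ≠ b → WAlt2_tri u v a ∈ Γ →
      WAlt2_tri u v b ∈ Γ → WAlt2_tri a u b ∈ Γ := by
    intro a b hau hav hbu hbv hab ha hb
    have h1 := hcj _ _ _ _ (hrev _ _ _ ha) hb
    rwa [WAlt2_ap3, WAlt2_ap2 _ _ _ hau huv.symm, WAlt2_ap4 _ _ _ _ hab.symm hbv hbu] at h1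
  -- three points outside
  have hF3 : ∀ a b c : Fin n, a ≠ u → a ≠ v → b ≠ u → b ≠ v → c ≠ u → c ≠ v → a ≠ b → a ≠ c →
      b ≠ c → WAlt2_tri u v a ∈ Γ → WAlt2_tri u v b ∈ Γ → WAlt2_tri u v c ∈ Γ →
      WAlt2_tri a b c ∈ Γ := by
    intro a b c hau hav hbu hbv hcu hcv hab hac hbc ha hb hc
    have h1 := hcj _ _ _ _ ha (hF1 b c hbu hbv hcu hcv hbc hb hc)
    rwa [WAlt2_ap2 _ _ _ hau.symm hav.symm, WAlt2_ap4 _ _ _ _ hbu hbv hab.symm,
      WAlt2_ap4 _ _ _ _ hcu hcv hac.symm] at h1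
  -- `u` first
  have hu : ∀ b c : Fin n, (b = v ∨ WAlt2_tri u v b ∈ Γ) → (c = v ∨ WAlt2_tri u v c ∈ Γ) →
      u ≠ b → u ≠ c → b ≠ c → WAlt2_tri u b c ∈ Γ := by
    intro b c hb hc hub huc hbc
    by_cases hbv : b = v
    · rw [hbv]
      exact hc.resolve_left (fun h => hbc (hbv.trans h.symm))
    · have hb' := hb.resolve_left hbv
      by_cases hcv : c = v
      · rw [hcv]
        exact hrot v u b huv.symm (Ne.symm hbv) (hrot b v u hbv hub.symm (hrev _ _ _ hb'))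
      · have hc' := hc.resolve_left hcv
        exact hrot c u b huc.symm hbc.symm
          (hF2 c b huc.symm hcv hub.symm hbv hbc.symm hc' hb')
  -- `v` first, `u` absent
  have hv : ∀ b c : Fin n, b ≠ u → c ≠ u → b ≠ v → c ≠ v → b ≠ c → WAlt2_tri u v b ∈ Γ →
      WAlt2_tri u v c ∈ Γ → WAlt2_tri v b c ∈ Γ := by
    intro b c hbu hcu hbv hcv hbc hb hc
    exact hF1 b c hbu hbv hcu hcv hbc hb hc
  intro a b c ha hb hc hab hac hbc
  simp only [Set.mem_ofPred_eq] at ha hb hc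
  by_cases hau : a = u
  · rw [hau] at hab hac ⊢
    exact hu b c (hb.resolve_left hab.symm) (hc.resolve_left hac.symm) hab hac hbc
  have ha' := ha.resolve_left hau
  by_cases hbu : b = u
  · rw [hbu] at hab hbc ⊢
    exact hrot c a u hac.symm (Ne.symm hbc) (hrot u c a hbc (Ne.symm hab)
      (hu c a (hc.resolve_left hbc.symm) ha' hbc (Ne.symm hau) hac.symm))
  have hb' := hb.resolve_left hbu
  by_cases hcu : c = u
  · rw [hcu] at hac hbc ⊢
    exact hrot u a b (Ne.symm hac) (Ne.symm hbc) (hu a b ha' hb' (Ne.symm hac) (Ne.symm hbc) hab)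
  have hc' := hc.resolve_left hcu
  by_cases hav : a = v
  · rw [hav] at hab hac ⊢
    exact hv b c hbu hcu hab.symm hac.symm hbc (hb'.resolve_left hab.symm)
      (hc'.resolve_left hac.symm)
  have ha'' := ha'.resolve_left hav
  by_cases hbv : b = v
  · rw [hbv] at hab hbc ⊢
    exact hrot c a v hac.symm (Ne.symm hbc) (hrot v c a hbc (Ne.symm hab)
      (hv c a hcu hau hbc.symm hab hac.symm (hc'.resolve_left hbc.symm) ha''))
  have hb'' := hb'.resolve_left hbv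
  by_cases hcv : c = v
  · rw [hcv] at hac hbc ⊢
    exact hrot v a b (Ne.symm hac) (Ne.symm hbc) (hv a b hau hbu hav hbv hab ha'' hb'')
  exact hF3 a b c hau hav hbu hbv hcu hcv hab hac hbc ha'' hb'' (hc'.resolve_left hcv)

theorem WAlt2_mono {Γ : Subgroup (Equiv.Perm (Fin n))} {S T : Set (Fin n)} (h : S ⊆ T)
    (hT : WAlt2_good Γ T) : WAlt2_good Γ S := fun a b c ha hb hc => hT a b c (h ha) (h hb) (h hc)

theorem WAlt2_union {Γ : Subgroup (Equiv.Perm (Fin n))} {S T : Set (Fin n)}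
    (hS : WAlt2_good Γ S) (hT : WAlt2_good Γ T) (u v : Fin n) (huv : u ≠ v) (huS : u ∈ S)
    (hvS : v ∈ S) (huT : u ∈ T) (hvT : v ∈ T) : WAlt2_good Γ (S ∪ T) := by
  refine WAlt2_mono ?_ (WAlt2_gen Γ u v huv)
  intro c hc
  simp only [Set.mem_ofPred_eq]
  by_cases hcu : c = u
  · exact Or.inl hcu
  by_cases hcv : c = v
  · exact Or.inr (Or.inl hcv)
  right; right
  rcases hc with hc | hc
  · exact hS u v c huS hvS hc huv (Ne.symm hcu) (Ne.symm hcv)
  · exact hT u v c huT hvT hc huv (Ne.symm hcu) (Ne.symm hcv)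

theorem WAlt2_image {Γ : Subgroup (Equiv.Perm (Fin n))} {S : Set (Fin n)}
    (hS : WAlt2_good Γ S) (h : Equiv.Perm (Fin n)) (hh : h ∈ Γ) : WAlt2_good Γ (h '' S) := by
  rintro _ _ _ ⟨a, ha, rfl⟩ ⟨b, hb, rfl⟩ ⟨c, hc, rfl⟩ hab hac hbc
  rw [← WAlt2_conj]
  exact Γ.mul_mem (Γ.mul_mem hh (hS a b c ha hb hc (fun h1 => hab (by rw [h1]))
    (fun h1 => hac (by rw [h1])) (fun h1 => hbc (by rw [h1])))) (Γ.inv_mem hh)

theorem WAlt2_three (a b c : Fin n) (hab : a ≠ b) (hac : a ≠ c) (hbc : b ≠ c) :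
    (WAlt2_tri a b c).IsThreeCycle := by
  have h := Equiv.Perm.isThreeCycle_swap_mul_swap_same hab.symm hbc hac
  unfold WAlt2_tri
  rwa [swap_comm a b]

theorem WAlt2_fixed (p : ℕ) (hp : p.Prime) (h5 : 5 ≤ p) (x : Equiv.Perm (Fin n))
    (hx : orderOf x = p) (i : Fin n) (hi : i ∈ x.support) (m : ℕ) (h1 : 1 ≤ m) (h2 : m < 5) :
    (x ^ m) i ≠ i := by
  intro h
  have hper : Function.IsPeriodicPt x p i := by
    change (x^[p]) i = i
    rw [Equiv.Perm.iterate_eq_pow, ← hx, pow_orderOf_eq_one]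
    rfl
  have hper2 : Function.IsPeriodicPt x m i := by
    change (x^[m]) i = i
    rw [Equiv.Perm.iterate_eq_pow]
    exact h
  have hd := hper.minimalPeriod_dvd
  rcases (Nat.dvd_prime hp).1 hd with h3 | h3
  · rw [Function.minimalPeriod_eq_one_iff_isFixedPt] at h3
    exact (Equiv.Perm.mem_support.1 hi) h3
  · have h4 := hper2.minimalPeriod_dvd
    rw [h3] at h4
    have := Nat.le_of_dvd h1 h4
    omega

theorem WAlt2_orb (x : Equiv.Perm (Fin n)) (Γ : Subgroup (Equiv.Perm (Fin n)))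
    (i : Fin n) (h1 : ∀ g : Equiv.Perm (Fin n), g.IsThreeCycle →
      (∀ j, g j ≠ j → ∃ m : ℕ, (x ^ m) i = j) → g ∈ Γ) :
    WAlt2_good Γ {j | ∃ m : ℕ, (x ^ m) i = j} := by
  intro a b c ha hb hc hab hac hbc
  refine h1 _ (WAlt2_three a b c hab hac hbc) ?_
  intro j hj
  by_cases hja : j = a
  · rw [hja]; exact ha
  by_cases hjb : j = b
  · rw [hjb]; exact hb
  by_cases hjc : j = c
  · rw [hjc]; exact hc
  exact absurd (WAlt2_ap4 a b c j hja hjb hjc) hj

theorem WAlt2_le (Γ : Subgroup (Equiv.Perm (Fin n))) (h : WAlt2_good Γ Set.univ) :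
    alternatingGroup (Fin n) ≤ Γ := by
  rw [← Equiv.Perm.closure_three_cycles_eq_alternating, Subgroup.closure_le]
  intro g hg
  have hg3 : g.IsThreeCycle := hg
  have hne : g.support.Nonempty := by
    rw [← Finset.card_pos, hg3.card_support]
    norm_num
  obtain ⟨a, ha⟩ := hne
  have h1 := hg3.eq_swap_mul_swap_iff_mem_support.mpr ha
  have h2 := hg3.nodup_iff_mem_support.mpr ha
  have h3 : a ≠ g a ∧ a ≠ g (g a) ∧ g a ≠ g (g a) := by
    simp only [List.nodup_cons, List.mem_cons, List.not_mem_nil, or_false, not_or] at h2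
    exact ⟨h2.1.1, h2.1.2, h2.2.1⟩
  have h4 := h a (g a) (g (g a)) (Set.mem_univ _) (Set.mem_univ _) (Set.mem_univ _) h3.1 h3.2.1
    h3.2.2
  unfold WAlt2_tri at h4
  rw [← h1] at h4
  exact h4

theorem prf_WAlt2 : WAlt2 := by
  intro p n h5 hp x hx Γ hG1 hG2 hG3
  apply WAlt2_le
  have hne : x.support.Nonempty := by
    rw [Finset.nonempty_iff_ne_empty]
    intro h
    rw [Equiv.Perm.support_eq_empty_iff] at h
    rw [h, orderOf_one] at hx
    omega
  obtain ⟨i, hi⟩ := hne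
  have hO := WAlt2_orb x Γ i (hG1 i hi)
  have hf := WAlt2_fixed p hp h5 x hx i hi
  have hf1 : x i ≠ i := by simpa using hf 1 le_rfl (by norm_num)
  have hf2 : x (x i) ≠ i := by
    have := hf 2 (by norm_num) (by norm_num)
    simpa [pow_succ] using this
  have hf3 : x (x (x i)) ≠ i := by
    have := hf 3 (by norm_num) (by norm_num)
    simpa [pow_succ] using this
  have m0 : i ∈ {j | ∃ m : ℕ, (x ^ m) i = j} := ⟨0, rfl⟩
  have m1 : x i ∈ {j | ∃ m : ℕ, (x ^ m) i = j} := ⟨1, by simp⟩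
  have m2 : x (x i) ∈ {j | ∃ m : ℕ, (x ^ m) i = j} := ⟨2, by simp [pow_succ]⟩
  have m3 : x (x (x i)) ∈ {j | ∃ m : ℕ, (x ^ m) i = j} := ⟨3, by simp [pow_succ]⟩
  refine WAlt2_mono ?_ (WAlt2_gen Γ i (x i) hf1.symm)
  intro j _
  simp only [Set.mem_ofPred_eq]
  by_cases hji : j = i
  · exact Or.inl hji
  by_cases hjx : j = x i
  · exact Or.inr (Or.inl hjx)
  right; right
  by_cases hjO : ∃ m : ℕ, (x ^ m) i = j
  · exact hO i (x i) j m0 m1 hjO hf1.symm (Ne.symm hji) (Ne.symm hjx)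
  by_cases hjs : j ∈ x.support
  · obtain ⟨h, hh, hij, -, -, -, hmv⟩ := hG3 i hi j hjs (fun m hm => hjO ⟨m, hm⟩)
    have hI := WAlt2_image hO h hh
    have hfx2 : h (x (x i)) = x (x i) := by
      by_contra hc
      rcases hmv _ hc with h1 | h1 | h1 | h1
      · exact hf2 h1
      · exact hjO ⟨2, by simpa [pow_succ] using h1⟩
      · exact hf1 (x.injective h1)
      · exact hjO ⟨1, by simpa using x.injective h1⟩
    have hfx3 : h (x (x (x i))) = x (x (x i)) := by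
      by_contra hc
      rcases hmv _ hc with h1 | h1 | h1 | h1
      · exact hf3 h1
      · exact hjO ⟨3, by simpa [pow_succ] using h1⟩
      · exact hf2 (x.injective h1)
      · exact hjO ⟨2, by simpa [pow_succ] using x.injective h1⟩
    have hU := WAlt2_union hO hI (x (x i)) (x (x (x i)))
      (fun h1 => hf1 (x.injective (x.injective h1)).symm) m2 m3 ⟨_, m2, hfx2⟩ ⟨_, m3, hfx3⟩
    exact hU i (x i) j (Or.inl m0) (Or.inl m1) (Or.inr ⟨i, m0, hij⟩) hf1.symm (Ne.symm hji)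
      (Ne.symm hjx)
  · obtain ⟨h, hh, hij, hmv⟩ := hG2 i hi j hjs
    have hI := WAlt2_image hO h hh
    have key : ∀ o : Fin n, (∃ m : ℕ, (x ^ m) i = o) → o ≠ i → ∃ m : ℕ, (x ^ m) i = h o := by
      intro o ho hoi
      by_cases hc : h o = o
      · rw [hc]; exact ho
      · have hc2 : h (h o) ≠ h o := fun h1 => hc (h.injective h1)
        rcases hmv _ hc2 with h1 | h1
        · exact absurd (h.injective (h1.trans hij.symm)) hoi
        · exact h1
    have hU := WAlt2_union hO hI (h (x i)) (h (x (x i)))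
      (fun h1 => hf1 (x.injective (h.injective h1)).symm) (key _ m1 hf1) (key _ m2 hf2)
      ⟨_, m1, rfl⟩ ⟨_, m2, rfl⟩
    exact hU i (x i) j (Or.inl m0) (Or.inl m1) (Or.inr ⟨i, m0, hij⟩) hf1.symm (Ne.symm hji)
      (Ne.symm hjx)

end MP7b0bad.MW
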