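import Pool.Agent.Work.MP_7b0bad_ag.MW.Stmts

set_option autoImplicit false

/-!
# [WAlt3] elements of order `p` of alternating groups
-/

namespace MP7b0bad.MW

theorem WAlt3_move (p : ℕ) (R : ∀ (G : Type) [Group G], Subgroup G → Prop) (hR : RelAx p R)
    (G : Type) [Group G] (A H Q : Subgroup G) (hH : H ≤ A) (hQ : Q ≤ H)
    (h : R H (Q.subgroupOf H)) :
    R (H.subgroupOf A) ((Q.subgroupOf A).subgroupOf (H.subgroupOf A)) := by
  have h1 := hR.iso H (H.subgroupOf A) (Subgroup.subgroupOfEquivOfLe hH).symm _ h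
  have h2 : (Q.subgroupOf H).map (Subgroup.subgroupOfEquivOfLe hH).symm.toMonoidHom =
      (Q.subgroupOf A).subgroupOf (H.subgroupOf A) := by
    ext y
    rw [Subgroup.mem_map, Subgroup.mem_subgroupOf, Subgroup.mem_subgroupOf]
    constructor
    · rintro ⟨z, hz, rfl⟩
      exact hz
    · intro hy
      refine ⟨⟨(y : A), y.2⟩, hy, ?_⟩
      apply Subtype.ext
      apply Subtype.ext
      rfl
  rw [h2] at h1
  exact h1

theorem prf_WAlt3 (hNor : WNor) (hAlt1 : WAlt1) (hAlt2 : WAlt2) : WAlt3 := by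
  intro p hp hp5 R hW hS n x hx
  have hPp : IsPGroup p (Subgroup.zpowers x) := by
    apply IsPGroup.of_card (n := 1)
    rw [Nat.card_zpowers, hx, pow_one]
  have hx' : orderOf (x : Equiv.Perm (Fin n)) = p := by
    rw [Subgroup.orderOf_coe, hx]
  have hzp : (Subgroup.zpowers (x : Equiv.Perm (Fin n))).subgroupOf (alternatingGroup (Fin n)) =
      Subgroup.zpowers x := by
    ext y
    rw [Subgroup.mem_subgroupOf, Subgroup.mem_zpowers_iff, Subgroup.mem_zpowers_iff]
    constructor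
    · rintro ⟨k, hk⟩
      exact ⟨k, Subtype.ext (by rw [← hk]; rfl)⟩
    · rintro ⟨k, hk⟩
      exact ⟨k, by rw [← hk]; rfl⟩
  obtain ⟨-, -, hfin, -, -, -⟩ := hNor p R hW.rel (alternatingGroup (Fin n)) (Subgroup.zpowers x) hPp
  apply hfin
  have key : ∀ H : Subgroup (Equiv.Perm (Fin n)), H ≤ alternatingGroup (Fin n) →
      (x : Equiv.Perm (Fin n)) ∈ H →
      R H ((Subgroup.zpowers (x : Equiv.Perm (Fin n))).subgroupOf H) →
      H ≤ (GamR R (Subgroup.zpowers x)).map (alternatingGroup (Fin n)).subtype := by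
    intro H hH hxH hRH
    have hQH : Subgroup.zpowers (x : Equiv.Perm (Fin n)) ≤ H := by
      rw [Subgroup.zpowers_le]
      exact hxH
    have h1 := WAlt3_move p R hW.rel _ _ H _ hH hQH hRH
    rw [hzp] at h1
    have h2 : RH R (Subgroup.zpowers x) (H.subgroupOf (alternatingGroup (Fin n))) := by
      refine ⟨Subgroup.zpowers x, le_rfl, ?_, h1⟩
      rw [Subgroup.zpowers_le, Subgroup.mem_subgroupOf]
      exact hxH
    have h3 : H.subgroupOf (alternatingGroup (Fin n)) ≤ GamR R (Subgroup.zpowers x) := le_sSup h2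
    intro h hh
    exact ⟨⟨h, hH hh⟩, h3 (by rw [Subgroup.mem_subgroupOf]; exact hh), rfl⟩
  obtain ⟨a1, a2, a3⟩ := hAlt1 p hp5 R hW hS n x hx' _ key
  have h4 := hAlt2 p n hp5 hp.out x hx' _ a1 a2 a3
  rw [eq_top_iff]
  intro a _
  obtain ⟨b, hb, hba⟩ := h4 a.2
  have : b = a := Subtype.ext hba
  rw [← this]
  exact hb

end MP7b0bad.MW
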