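import Pool.Agent.Work.MP_7b0bad_ag.MW.Stmts

set_option autoImplicit false

/-!
# Block MW, item WB1: elements of `P` normalising `L` and acting nontrivially, for `StarR`
-/

namespace MP7b0bad.MW

theorem WB1_top (hNor : WNor) (p : ℕ) [Fact p.Prime]
    (R : ∀ (G : Type) [Group G], Subgroup G → Prop) (hR : WAx p R) (L0 : Type) [Group L0]
    (hS : StarR p R L0) (X : Type) [Group X] [Finite X] (L : Subgroup X) [L.Normal]
    (hiso : Nonempty (L ≃* L0)) (hsim : IsSimpleGroup L) (v : X)
    (hgen : L ⊔ Subgroup.zpowers v = ⊤)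
    (hv : IsPGroup p (Subgroup.zpowers v)) (hc : ∀ x ∈ L, (∀ y ∈ L, x * y = y * x) → x = 1)
    (hv1 : ∃ x ∈ L, v * x ≠ x * v) (hv2 : ∀ x ∈ L, v ^ p * x = x * v ^ p) :
    R X (Subgroup.zpowers v) := by
  have hp : p.Prime := Fact.out
  -- the centraliser
  obtain ⟨C, hCdef⟩ : ∃ C : Subgroup X, C = Subgroup.centralizer (L : Set X) := ⟨_, rfl⟩
  have hCn : C.Normal := by rw [hCdef]; infer_instance
  have memC : ∀ x : X, x ∈ C ↔ ∀ l ∈ L, x * l = l * x := by
    intro x
    rw [hCdef, Subgroup.mem_centralizer_iff]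
    exact ⟨fun h l hl => (h l hl).symm, fun h l hl => (h l hl).symm⟩
  have hLC : ∀ x ∈ L, x ∈ C → x = 1 := by
    intro x hx hxC
    exact hc x hx ((memC x).1 hxC)
  have hLn : L.Normal := inferInstance
  -- `C` is central
  have hCv : ∀ c ∈ C, v * c = c * v := by
    intro c hcC
    have hct : c ∈ L ⊔ Subgroup.zpowers v := by rw [hgen]; trivial
    rw [Subgroup.mem_sup_of_normal_left] at hct
    obtain ⟨l, hl, w, hw, hlw⟩ := hct
    obtain ⟨i, rfl⟩ := Subgroup.mem_zpowers_iff.1 hw
    have h1 : v * c * v⁻¹ * c⁻¹ ∈ L := by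
      have e : v * c * v⁻¹ * c⁻¹ = (v * l * v⁻¹) * l⁻¹ := by
        rw [← hlw]
        group
      rw [e]
      exact L.mul_mem (hLn.conj_mem l hl v) (L.inv_mem hl)
    have h2 : v * c * v⁻¹ * c⁻¹ ∈ C := C.mul_mem (hCn.conj_mem c hcC v) (C.inv_mem hcC)
    have h3 := hLC _ h1 h2
    rw [mul_inv_eq_one, mul_inv_eq_iff_eq_mul] at h3
    exact h3
  have hCz : ∀ c ∈ C, ∀ x : X, x * c = c * x := by
    intro c hcC x
    have h1 : (⊤ : Subgroup X) ≤ Subgroup.centralizer {c} := by
      rw [← hgen]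
      refine sup_le ?_ ?_
      · intro l hl
        rw [Subgroup.mem_centralizer_singleton_iff]
        exact ((memC c).1 hcC l hl).symm
      · rw [Subgroup.zpowers_le, Subgroup.mem_centralizer_singleton_iff]
        exact hCv c hcC
    have := h1 (Subgroup.mem_top x)
    rwa [Subgroup.mem_centralizer_singleton_iff] at this
  -- the quotient
  have hker : ∀ x y : X, (QuotientGroup.mk' C) x = (QuotientGroup.mk' C) y → x * y⁻¹ ∈ C := by
    intro x y h
    rw [← QuotientGroup.eq_one_iff (N := C)]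
    change (QuotientGroup.mk' C) (x * y⁻¹) = 1
    rw [map_mul, map_inv, h, mul_inv_cancel]
  have hone : ∀ x : X, (QuotientGroup.mk' C) x = 1 ↔ x ∈ C := fun x => QuotientGroup.eq_one_iff x
  have hsurj : Function.Surjective (QuotientGroup.mk' C) := QuotientGroup.mk'_surjective C
  have hLb : (L.map (QuotientGroup.mk' C)).Normal := hLn.map _ hsurj
  have hIso : Nonempty ((L.map (QuotientGroup.mk' C)) ≃* L0) := by
    obtain ⟨e⟩ := hiso
    have hinj : Function.Injective ((QuotientGroup.mk' C).comp L.subtype) := by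
      rw [injective_iff_map_eq_one]
      intro x hx
      exact Subtype.ext (hLC _ x.2 ((hone _).1 hx))
    have e1 := MonoidHom.ofInjective hinj
    have e2 : ((QuotientGroup.mk' C).comp L.subtype).range = L.map (QuotientGroup.mk' C) := by
      rw [MonoidHom.range_comp, Subgroup.range_subtype]
    rw [e2] at e1
    exact ⟨e1.symm.trans e⟩
  have hub : orderOf ((QuotientGroup.mk' C) v) = p := by
    apply orderOf_eq_prime
    · rw [← map_pow, hone, memC]
      exact hv2
    · rw [Ne, hone, memC]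
      intro h
      obtain ⟨x, hx, hxx⟩ := hv1
      exact hxx (h x hx)
  have hgenb : L.map (QuotientGroup.mk' C) ⊔ Subgroup.zpowers ((QuotientGroup.mk' C) v) = ⊤ := by
    rw [← MonoidHom.map_zpowers, ← Subgroup.map_sup, hgen, ← MonoidHom.range_eq_map]
    exact MonoidHom.range_eq_top.2 hsurj
  have hcb : ∀ x : X ⧸ C, (∀ l ∈ L.map (QuotientGroup.mk' C), x * l = l * x) → x = 1 := by
    intro x hx
    obtain ⟨y, rfl⟩ := hsurj x
    rw [hone, memC]
    intro l hl
    have h1 := hx _ ⟨l, hl, rfl⟩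
    rw [← map_mul, ← map_mul] at h1
    have h2 := hker _ _ h1
    have e : y * l * (l * y)⁻¹ = (y * l * y⁻¹) * l⁻¹ := by group
    have h3 : y * l * (l * y)⁻¹ ∈ L := by
      rw [e]
      exact L.mul_mem (hLn.conj_mem l hl y) (L.inv_mem hl)
    have h4 := hLC _ h3 h2
    rwa [mul_inv_eq_one] at h4
  have hstar := hS (X ⧸ C) (L.map (QuotientGroup.mk' C)) ((QuotientGroup.mk' C) v) hLb hIso hcb
    hub hgenb
  have hpz : IsPGroup p (Subgroup.zpowers ((QuotientGroup.mk' C) v)) := by
    rw [← MonoidHom.map_zpowers]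
    exact hv.map _
  have hN := hNor p R hR.rel (X ⧸ C) _ hpz
  have h5 : GamR R (Subgroup.zpowers ((QuotientGroup.mk' C) v)) = ⊤ := by
    rw [eq_top_iff, ← hgenb]
    exact sup_le hstar hN.1
  have h6 : R (X ⧸ C) ((Subgroup.zpowers v).map (QuotientGroup.mk' C)) := by
    rw [MonoidHom.map_zpowers]
    exact hN.2.2.1 h5
  -- the normal closure of `v`
  have h7 : Subgroup.normalClosure ((Subgroup.zpowers v : Subgroup X) : Set X) = ⊤ := by
    obtain ⟨M, hM⟩ : ∃ M : Subgroup X,
      M = Subgroup.normalClosure ((Subgroup.zpowers v : Subgroup X) : Set X) := ⟨_, rfl⟩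
    have hMn : M.Normal := by rw [hM]; exact Subgroup.normalClosure_normal
    have hvM : v ∈ M := by
      rw [hM]
      exact Subgroup.subset_normalClosure (Subgroup.mem_zpowers v)
    obtain ⟨x, hx, hxx⟩ := hv1
    have hLM : L ≤ M := by
      have hn : (M.subgroupOf L).Normal := inferInstance
      rcases hsim.eq_bot_or_eq_top_of_normal (M.subgroupOf L) hn with h | h
      · exfalso
        have h1 : v * x * v⁻¹ * x⁻¹ ∈ M := by
          have e : v * x * v⁻¹ * x⁻¹ = v * (x * v⁻¹ * x⁻¹) := by group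
          rw [e]
          exact M.mul_mem hvM (hMn.conj_mem _ (M.inv_mem hvM) x)
        have h2 : v * x * v⁻¹ * x⁻¹ ∈ L := L.mul_mem (hLn.conj_mem x hx v) (L.inv_mem hx)
        have h3 : (⟨v * x * v⁻¹ * x⁻¹, h2⟩ : L) ∈ M.subgroupOf L := h1
        rw [h, Subgroup.mem_bot] at h3
        have h4 : v * x * v⁻¹ * x⁻¹ = 1 := congrArg Subtype.val h3
        rw [mul_inv_eq_one, mul_inv_eq_iff_eq_mul] at h4
        exact hxx h4
      · exact Subgroup.subgroupOf_eq_top.1 h
    rw [← hM, eq_top_iff, ← hgen]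
    refine sup_le hLM ?_
    rw [Subgroup.zpowers_le]
    exact hvM
  refine hR.solv X (Subgroup.zpowers v) C hv h7 ?_ h6
  exact Group.isSolvable_of_comm fun a b => Subtype.ext (hCz b.1 b.2 a.1)

theorem prf_WB1 (hNor : WNor) : WB1 := by
  intro p _ R hR G _ _ P L u hP hu hn hc hsim hnab hS
  obtain ⟨v, hvP, hvn, hv1, hv2⟩ := HB1M_v p P L u hP hu hn hc
  -- centreless
  have hcen : ∀ x ∈ L, (∀ y ∈ L, x * y = y * x) → x = 1 := by
    intro x hx hxy
    rcases hsim.eq_bot_or_eq_top_of_normal (Subgroup.center L) inferInstance with h | h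
    · have h1 : (⟨x, hx⟩ : L) ∈ Subgroup.center L := by
        rw [Subgroup.mem_center_iff]
        intro y
        exact Subtype.ext (hxy y y.2).symm
      rw [h, Subgroup.mem_bot] at h1
      exact congrArg Subtype.val h1
    · obtain ⟨a, b, hab⟩ := hnab
      exfalso
      have h1 : a ∈ Subgroup.center L := by rw [h]; trivial
      rw [Subgroup.mem_center_iff] at h1
      exact hab (h1 b).symm
  -- the subgroup
  obtain ⟨X, hX⟩ : ∃ X : Subgroup G, X = L ⊔ Subgroup.zpowers v := ⟨_, rfl⟩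
  have hLX : L ≤ X := by rw [hX]; exact le_sup_left
  have hvX : v ∈ X := by
    have h3 : Subgroup.zpowers v ≤ X := by rw [hX]; exact le_sup_right
    exact h3 (Subgroup.mem_zpowers v)
  have hvz : Subgroup.zpowers v ≤ P := by rwa [Subgroup.zpowers_le]
  have hvzX : Subgroup.zpowers v ≤ X := by rwa [Subgroup.zpowers_le]
  have hXn : X ≤ Subgroup.normalizer (L : Set G) := by
    rw [hX]
    refine sup_le Subgroup.le_normalizer ?_
    rw [Subgroup.zpowers_le]
    have h1 : L.map (MulAut.conj v).toMonoidHom ≤ L := by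
      rintro _ ⟨x, hx, rfl⟩
      exact hvn x hx
    have h2 : L.map (MulAut.conj v).toMonoidHom = L := by
      refine Subgroup.eq_of_le_of_card_ge h1 (le_of_eq ?_)
      exact Nat.card_congr (L.equivMapOfInjective _ (MulAut.conj v).injective).toEquiv
    rw [Subgroup.mem_normalizer_iff]
    intro h
    refine ⟨hvn h, fun hh => ?_⟩
    have h3 : v * h * v⁻¹ ∈ L.map (MulAut.conj v).toMonoidHom := by
      rw [h2]
      exact hh
    obtain ⟨y, hy, hyv⟩ := h3
    have h4 : v * y * v⁻¹ = v * h * v⁻¹ := hyv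
    have h5 : y = h := mul_left_cancel (mul_right_cancel h4)
    rwa [← h5]
  have hLXn : (L.subgroupOf X).Normal := by
    constructor
    intro x hx n
    rw [Subgroup.mem_subgroupOf] at hx ⊢
    exact ((Subgroup.mem_normalizer_iff.1 (hXn n.2)) x).1 hx
  have hzz : Subgroup.zpowers (⟨v, hvX⟩ : X) = (Subgroup.zpowers v).subgroupOf X := by
    ext x
    rw [Subgroup.mem_subgroupOf, Subgroup.mem_zpowers_iff, Subgroup.mem_zpowers_iff]
    constructor
    · rintro ⟨i, rfl⟩
      exact ⟨i, rfl⟩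
    · rintro ⟨i, hi⟩
      exact ⟨i, Subtype.ext hi⟩
  have hsimX : IsSimpleGroup (L.subgroupOf X) := by
    have e := (Subgroup.subgroupOfEquivOfLe hLX).symm
    have : Nontrivial (L.subgroupOf X) := e.symm.toEquiv.nontrivial
    exact IsSimpleGroup.isSimpleGroup_of_surjective e.toMonoidHom e.surjective
  have hfin := WB1_top hNor p R hR L hS X (L.subgroupOf X)
    ⟨Subgroup.subgroupOfEquivOfLe hLX⟩ hsimX ⟨v, hvX⟩ (by
      apply Subgroup.map_injective X.subtype_injective
      rw [Subgroup.map_sup, hzz, Subgroup.map_subgroupOf_eq_of_le hLX,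
        Subgroup.map_subgroupOf_eq_of_le hvzX, ← MonoidHom.range_eq_map, Subgroup.range_subtype,
        hX]) (by
      rw [hzz]
      exact (hP.to_le hvz).comap_subtype) (by
      intro x hx hxy
      rw [Subgroup.mem_subgroupOf] at hx
      apply Subtype.ext
      refine hcen x hx fun y hy => ?_
      exact congrArg Subtype.val (hxy ⟨y, hLX hy⟩ (by rwa [Subgroup.mem_subgroupOf]))) (by
      obtain ⟨x, hx, hxx⟩ := hv1
      refine ⟨⟨x, hLX hx⟩, by rwa [Subgroup.mem_subgroupOf], fun h => hxx ?_⟩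
      exact congrArg Subtype.val h) (by
      intro x hx
      rw [Subgroup.mem_subgroupOf] at hx
      exact Subtype.ext (hv2 x hx))
  rw [hzz] at hfin
  have h8 : X ≤ GamR R P := le_sSup ⟨Subgroup.zpowers v, hvz, hvzX, hfin⟩
  exact hLX.trans h8

end MP7b0bad.MW
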