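import Pool.Agent.Work.MP_7b0bad_ag.MW.Stmts

/-!
# MP_7b0bad_ag, block MW, item WEmb: automorphisms of odd prime order of alternating groups

An automorphism of `A_6` of odd order preserves the 3-cycles, so `X` embeds into the symmetric
group (`HEmb`, `HEmbG`); the image of `u` is even because `u` has odd order.
-/

set_option autoImplicit false

namespace MP7b0bad.MW

theorem WEmb_33_conj (g x y : alternatingGroup (Fin 6))
    (h : (x : Equiv.Perm (Fin 6)).cycleType = {3, 3}) (hy : g * x * g⁻¹ = y) :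
    (y : Equiv.Perm (Fin 6)).cycleType = {3, 3} := by
  have h1 : (y : Equiv.Perm (Fin 6)) = (g : Equiv.Perm (Fin 6)) * x * (g : Equiv.Perm (Fin 6))⁻¹ := by
    rw [← hy]; rfl
  rw [h1, Equiv.Perm.cycleType_conj, h]

/-- an automorphism of `A_6` that maps one 3-cycle to a product of two 3-cycles does so for all
3-cycles -/
theorem WEmb_A (φ : MulAut (alternatingGroup (Fin 6))) (c : alternatingGroup (Fin 6))
    (hc : (c : Equiv.Perm (Fin 6)).IsThreeCycle)
    (hc' : (φ c : Equiv.Perm (Fin 6)).cycleType = {3, 3}) (x : alternatingGroup (Fin 6))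
    (hx : (x : Equiv.Perm (Fin 6)).IsThreeCycle) :
    (φ x : Equiv.Perm (Fin 6)).cycleType = {3, 3} := by
  have hic : IsConj c x := alternatingGroup.isThreeCycle_isConj (by simp) hc hx
  obtain ⟨g, hg⟩ := isConj_iff.mp hic
  refine WEmb_33_conj (φ g) (φ c) _ hc' ?_
  rw [← hg]
  simp only [map_mul, map_inv]

/-- ... and it maps the products of two 3-cycles to 3-cycles -/
theorem WEmb_B (φ : MulAut (alternatingGroup (Fin 6))) (c : alternatingGroup (Fin 6))
    (hc : (c : Equiv.Perm (Fin 6)).IsThreeCycle)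
    (hc' : (φ c : Equiv.Perm (Fin 6)).cycleType = {3, 3}) (x : alternatingGroup (Fin 6))
    (hx : (x : Equiv.Perm (Fin 6)).cycleType = {3, 3}) (hx3 : orderOf x = 3) :
    (φ x : Equiv.Perm (Fin 6)).IsThreeCycle := by
  rcases HCyc6_ord (φ x) (by rw [MulEquiv.orderOf_eq φ x, hx3]) with h | h
  · exact h
  · exfalso
    obtain ⟨a, ha⟩ := HCyc6_conj _ _ hc' h
    have h3 : (x : Equiv.Perm (Fin 6)).IsThreeCycle := by
      refine HSixA_conj3 hc (φ.symm a) ?_
      apply φ.injective
      rw [← ha]
      simp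
    unfold Equiv.Perm.IsThreeCycle at h3
    rw [h3] at hx
    revert hx
    decide

/-- automorphisms of `A_6` of odd order preserve the 3-cycles -/
theorem WEmb_odd (φ : MulAut (alternatingGroup (Fin 6))) (k : ℕ) (hφ : φ ^ (2 * k + 1) = 1)
    (c : alternatingGroup (Fin 6)) (hc : (c : Equiv.Perm (Fin 6)).IsThreeCycle) :
    (φ c : Equiv.Perm (Fin 6)).IsThreeCycle := by
  have hoc : orderOf c = 3 := by
    rw [← Subgroup.orderOf_coe]; exact hc.orderOf
  rcases HCyc6_ord (φ c) (by rw [MulEquiv.orderOf_eq φ c, hoc]) with h | h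
  · exact h
  exfalso
  have hpow : ∀ m : ℕ, ((φ ^ (2 * m)) c : Equiv.Perm (Fin 6)).IsThreeCycle := by
    intro m
    induction m with
    | zero => simpa using hc
    | succ m ih =>
      have h1 := WEmb_A φ c hc h _ ih
      have h2 := WEmb_B φ c hc h _ h1 (by
        rw [MulEquiv.orderOf_eq φ, ← Subgroup.orderOf_coe]; exact ih.orderOf)
      have h3 : (φ ^ (2 * (m + 1))) c = φ (φ ((φ ^ (2 * m)) c)) := by
        rw [show 2 * (m + 1) = 1 + (1 + 2 * m) by ring, pow_add, pow_add, pow_one]
        rfl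
      rw [h3]
      exact h2
  have h4 := WEmb_A φ c hc h _ (hpow k)
  have h5 : φ ((φ ^ (2 * k)) c) = c := by
    have h6 : φ ((φ ^ (2 * k)) c) = (φ ^ (2 * k + 1)) c := by
      rw [show 2 * k + 1 = 1 + 2 * k by ring, pow_add, pow_one]
      rfl
    rw [h6, hφ]
    rfl
  rw [h5] at h4
  unfold Equiv.Perm.IsThreeCycle at hc
  rw [hc] at h4
  revert h4
  decide

theorem prf_WEmb : WEmb := by
  intro n p hn hp hp2 X _ _ L u hL he hfaith hu htop
  have hodd : Odd p := hp.odd_of_ne_two hp2
  have hemb : ∃ f : X →* Equiv.Perm (Fin n), Function.Injective f ∧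
      L.map f = alternatingGroup (Fin n) := by
    by_cases h6 : n = 6
    · subst h6
      obtain ⟨e⟩ := he
      obtain ⟨k, hk⟩ := hodd
      have _inst := hL
      set Φ : X →* MulAut (alternatingGroup (Fin 6)) :=
        (MulAut.congr e).toMonoidHom.comp (MulAut.conjNormal : X →* MulAut L) with hΦ
      have hΦa : ∀ (x : X) (c : alternatingGroup (Fin 6)),
          Φ x c = e (MulAut.conjNormal x (e.symm c)) := fun x c => rfl
      refine HEmbG all_HAut3 6 hn X L u e hfaith htop ?_
      intro c hc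
      have h1 := WEmb_odd (Φ u) k (by
        rw [← map_pow, ← hk, ← hu, pow_orderOf_eq_one, map_one]) c hc
      rwa [hΦa] at h1
    · exact all_HEmb n p hn hp (Or.inl h6) X L u hL he hfaith hu htop
  obtain ⟨f, hf, hfL⟩ := hemb
  have hfu : f u ∈ alternatingGroup (Fin n) := by
    rw [Equiv.Perm.mem_alternatingGroup]
    have h1 : (Equiv.Perm.sign (f u)) ^ p = 1 := by
      rw [← map_pow, ← map_pow, ← hu, pow_orderOf_eq_one, map_one, map_one]
    rcases Int.units_eq_one_or (Equiv.Perm.sign (f u)) with h | h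
    · exact h
    · rw [h, hodd.neg_one_pow] at h1
      rw [h, h1]
  have hr : f.range = alternatingGroup (Fin n) := by
    apply le_antisymm
    · rw [MonoidHom.range_eq_map, ← htop, Subgroup.map_sup, hfL, MonoidHom.map_zpowers]
      exact sup_le le_rfl (by rwa [Subgroup.zpowers_le])
    · rw [← hfL]
      exact Subgroup.map_le_range f L
  exact ⟨(MonoidHom.ofInjective hf).trans (MulEquiv.subgroupCongr hr)⟩

end MP7b0bad.MW
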