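import Pool.Agent.Work.MP_7b0bad_ag.MW.Stmts
import Pool.Agent.Work.MP_7b0bad_ag.LF.Fin

set_option autoImplicit false

/-!
# Block MW, item WFin (helper70)
-/

namespace MP7b0bad.MW

theorem WFin_star (hNor : WNor) {p : ℕ} [Fact p.Prime]
    {R : ∀ (G : Type) [Group G], Subgroup G → Prop} (hR : RelAx p R) (L : Type) [Group L]
    (h : StarM p L) : StarR p R L := by
  intro X _ _ L' u hn hi hc ho hg
  have hP : IsPGroup p (Subgroup.zpowers u) := by
    have h1 : Nat.card (Subgroup.zpowers u) = p ^ 1 := by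
      rw [Nat.card_zpowers, ho, pow_one]
    exact IsPGroup.of_card h1
  exact (h X L' u hn hi hc ho hg).trans (hNor p R hR X (Subgroup.zpowers u) hP).2.1

theorem WFin_iso {p : ℕ} {R : ∀ (G : Type) [Group G], Subgroup G → Prop} (L L' : Type)
    [Group L] [Group L'] (e : L ≃* L') (h : StarR p R L) : StarR p R L' := by
  intro X _ _ L₀ u hn ⟨f⟩ hX hu hg
  exact h X L₀ u hn ⟨f.trans e.symm⟩ hX hu hg

theorem prf_WFin (hRed : WRed) (hAlt : WAlt) (hRel : WRel) (hSd : WSd) (hNor : WNor) : WFin := by
  intro p _ k _ _ _ G _ _ P hP hn h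
  have hp : p.Prime := Fact.out
  by_cases h2 : p = 2
  · subst h2
    exact all_HCritK k 2 G P hP (LF.all_fin2 G P hP hn)
  · refine all_QOcc k p G P hP (hRed p (fun (G : Type) [Group G] (P : Subgroup G) => Rel k G P)
      (hRel k p) G P hP hn ?_)
    intro K _ N L hN hLN hLN' hs hpL hab
    have hR := (hRel k p).rel
    rcases h h2 K N L hN hLN hLN' hs hpL hab with h1 | ⟨n, hn5, ⟨e⟩⟩ | ⟨F, hF, hFf, hpF, ⟨e⟩⟩
    · exact WFin_star hNor hR _ (prf_HGenM all_HNor all_GCop p L hs h1)
    · by_cases h3 : p = 3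
      · subst h3
        exact WFin_star hNor hR _ (HRedM_starIso _ _ e.symm (all_HAlt3 n hn5).2)
      · have h5 : 5 ≤ p := by
          have h4 : p ≠ 4 := by
            rintro rfl
            exact absurd hp (by decide)
          have := hp.two_le
          omega
        exact WFin_iso _ _ e.symm (hAlt p h5 _ (hRel k p) (hSd k p h5) n hn5)
    · have h3 : InvGen p (Matrix.ProjectiveSpecialLinearGroup (Fin 2) F) :=
        prf_HPSL3 prf_HPSL1 prf_HPSL2 p h2 F hpF
      have := hs
      have hsF : IsSimpleGroup (Matrix.ProjectiveSpecialLinearGroup (Fin 2) F) := by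
        have : Nontrivial (Matrix.ProjectiveSpecialLinearGroup (Fin 2) F) :=
          e.symm.toEquiv.nontrivial
        exact IsSimpleGroup.isSimpleGroup_of_surjective e.toMonoidHom e.surjective
      have : Finite (Matrix.ProjectiveSpecialLinearGroup (Fin 2) F) := Finite.of_equiv L e.toEquiv
      exact WFin_star hNor hR _
        (HRedM_starIso _ _ e.symm (prf_HGenM all_HNor all_GCop p _ hsF h3))

end MP7b0bad.MW
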