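import Mathlib
import Pool.Agent.Work.MP_7b0bad_ag.MW.Stmts

set_option autoImplicit false

/-!
# MP_7b0bad_ag, block MW, item WLift
-/

namespace MP7b0bad.MW

/-- translation of `nclIn H P = H` into a statement about the group `H` -/
theorem WLift_ncl {G : Type} [Group G] (H P : Subgroup G) (hPH : P ≤ H) (hn : nclIn H P = H) :
    Subgroup.normalClosure ((P.subgroupOf H : Subgroup H) : Set H) = ⊤ := by
  have h2 : nclIn H P ≤
      (Subgroup.normalClosure ((P.subgroupOf H : Subgroup H) : Set H)).map H.subtype := by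
    rw [nclIn, Subgroup.closure_le]
    rintro g ⟨x, hx, q, hq, rfl⟩
    refine ⟨⟨x, hx⟩ * ⟨q, hPH hq⟩ * ⟨x, hx⟩⁻¹, ?_, rfl⟩
    exact Subgroup.normalClosure_normal.conj_mem _
      (Subgroup.subset_normalClosure (Subgroup.mem_subgroupOf.2 hq)) _
  rw [eq_top_iff]
  rintro ⟨h, hh⟩ -
  obtain ⟨y, hy, he⟩ := h2 (hn.symm ▸ hh)
  have h3 : y = ⟨h, hh⟩ := Subtype.ext he
  rwa [← h3]

/-- `G / N ≃ H / (N ∩ H)` if `N H = G` -/
theorem WLift_iso {G : Type} [Group G] (N H : Subgroup G) [N.Normal] (h : N ⊔ H = ⊤) :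
    ∃ e : G ⧸ N ≃* H ⧸ N.subgroupOf H, ∀ x : H,
      e (QuotientGroup.mk' N (x : G)) = QuotientGroup.mk' (N.subgroupOf H) x := by
  let φ : H →* G ⧸ N := (QuotientGroup.mk' N).comp H.subtype
  have hφ : Function.Surjective φ := by
    intro y
    obtain ⟨g, rfl⟩ := QuotientGroup.mk'_surjective N y
    have hg : g ∈ N ⊔ H := h ▸ Subgroup.mem_top g
    obtain ⟨a, ha, b, hb, rfl⟩ := Subgroup.mem_sup_of_normal_left.1 hg
    refine ⟨⟨b, hb⟩, ?_⟩
    show QuotientGroup.mk' N b = QuotientGroup.mk' N (a * b)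
    rw [map_mul, show QuotientGroup.mk' N a = 1 from (QuotientGroup.eq_one_iff a).2 ha, one_mul]
  have hk : φ.ker = N.subgroupOf H := by
    ext x
    rw [MonoidHom.mem_ker, Subgroup.mem_subgroupOf]
    exact QuotientGroup.eq_one_iff (x : G)
  let e1 : H ⧸ φ.ker ≃* G ⧸ N := QuotientGroup.quotientKerEquivOfSurjective φ hφ
  let e2 : H ⧸ φ.ker ≃* H ⧸ N.subgroupOf H := QuotientGroup.quotientMulEquivOfEq hk
  refine ⟨e1.symm.trans e2, fun x => ?_⟩
  have h1 : e1 (QuotientGroup.mk x) = QuotientGroup.mk' N (x : G) := rfl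
  rw [← h1, MulEquiv.trans_apply, MulEquiv.symm_apply_apply]
  rfl

theorem prf_WLift (hSup : WSup) : WLift := by
  intro p _ R hW G _ _ P N _ hP hn hR
  obtain ⟨H, hPH, hNH, hsol, hncl⟩ := hSup p G P N hP hn
  obtain ⟨e, he⟩ := WLift_iso N H hNH
  have h1 : R (H ⧸ N.subgroupOf H)
      ((P.subgroupOf H).map (QuotientGroup.mk' (N.subgroupOf H))) := by
    have h2 := hW.rel.iso (G ⧸ N) (H ⧸ N.subgroupOf H) e (P.map (QuotientGroup.mk' N)) hR
    have h3 : (P.map (QuotientGroup.mk' N)).map e.toMonoidHom =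
        (P.subgroupOf H).map (QuotientGroup.mk' (N.subgroupOf H)) := by
      ext y
      constructor
      · rintro ⟨_, ⟨q, hq, rfl⟩, rfl⟩
        exact ⟨⟨q, hPH hq⟩, Subgroup.mem_subgroupOf.2 hq, (he ⟨q, hPH hq⟩).symm⟩
      · rintro ⟨x, hx, rfl⟩
        exact ⟨QuotientGroup.mk' N (x : G), ⟨x, Subgroup.mem_subgroupOf.1 hx, rfl⟩, he x⟩
    rwa [h3] at h2
  have h4 : R H (P.subgroupOf H) :=
    hW.solv H (P.subgroupOf H) (N.subgroupOf H) (hP.comap_subtype) (WLift_ncl H P hPH hncl)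
      hsol h1
  have h5 : H ≤ GamR R P := le_sSup ⟨P, le_rfl, hPH, h4⟩
  rw [eq_top_iff, ← hNH]
  exact sup_le_sup_left h5 N

end MP7b0bad.MW
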