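import Pool.Agent.Work.MP_7b0bad_ag.MW.Stmts

set_option autoImplicit false

/-!
# Block MW, item WRed: the reduction
-/

namespace MP7b0bad.MW

theorem WRed_starIso {p : ℕ} {R : ∀ (G : Type) [Group G], Subgroup G → Prop} (L L' : Type)
    [Group L] [Group L'] (e : L ≃* L') (h : StarR p R L) : StarR p R L' := by
  intro X _ _ L₀ u hn ⟨f⟩ hX hu hg
  exact h X L₀ u hn ⟨f.trans e.symm⟩ hX hu hg

theorem WRed_aux (hNor : WNor) (hLift : WLift) (hAb : WAb) (hB1 : WB1) (p : ℕ) [Fact p.Prime]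
    (R : ∀ (G : Type) [Group G], Subgroup G → Prop) (hR : WAx p R) :
    ∀ (n : ℕ) (G : Type) [Group G] [Finite G] (P : Subgroup G), Nat.card G = n → IsPGroup p P →
    Subgroup.normalClosure (P : Set G) = ⊤ → CFac p (StarR p R) G → R G P := by
  intro n
  induction n using Nat.strong_induction_on with
  | _ n ih =>
  intro G _ _ P hn hP hcl hCF
  cases subsingleton_or_nontrivial G with
  | inl hsub =>
    have hG : IsPGroup p G := by
      intro g
      exact ⟨0, Subsingleton.elim _ _⟩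
    have h1 := hR.rel.pgr G hG
    have h2 : P = ⊤ := Subsingleton.elim _ _
    rw [h2]
    exact h1
  | inr hnt =>
  obtain ⟨hPG, hGG, htop, -, hconj, -⟩ := hNor p R hR.rel G P hP
  obtain ⟨N, hN, hN0, hmin⟩ := HRed_min (G := G)
  haveI := hN
  have hsurj : Function.Surjective (QuotientGroup.mk' N) := QuotientGroup.mk'_surjective N
  -- induction for the quotient
  have hlt : Nat.card (G ⧸ N) < n := by
    rw [← hn, Subgroup.card_eq_card_quotient_mul_card_subgroup N]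
    have h1 : 1 < Nat.card N := by
      rw [Subgroup.one_lt_card_iff_ne_bot]
      exact hN0
    have h2 : 0 < Nat.card (G ⧸ N) := Nat.card_pos
    nlinarith
  have hq : R (G ⧸ N) (P.map (QuotientGroup.mk' N)) := by
    refine ih _ hlt (G ⧸ N) _ rfl (hP.map _) ?_ (HRed_quot WRed_starIso hCF N)
    have h1 := Subgroup.map_normalClosure (P : Set G) (QuotientGroup.mk' N) hsurj
    rw [hcl, Subgroup.map_top_of_surjective _ hsurj] at h1
    rw [Subgroup.coe_map, ← h1]
  have hNG : N ⊔ GamR R P = ⊤ := hLift p R hR G P N hP hcl hq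
  by_cases hcase : IsPGroup p N ∨ ¬ p ∣ Nat.card N
  · rcases hcase with hcase | hcase
    · haveI : Group.IsNilpotent N := hcase.isNilpotent
      exact hR.solv G P N hP hcl inferInstance hq
    · refine htop (hAb p G P N (GamR R P) hN hP hcl hcase hPG ?_ ?_ hNG)
      · intro c hc
        refine hconj c ?_
        intro q hq'
        rw [hc q hq', mul_assoc, mul_inv_cancel, mul_one]
        exact hq'
      · intro a ha q hq'
        exact hGG ((all_HNor p G P hP).2.2.2 N P le_rfl hcase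
          (fun q _ a ha => hN.conj_mem a ha q) a ha q hq')
  rw [not_or, not_not] at hcase
  obtain ⟨hc1, hc2⟩ := hcase
  have hnab : ∃ a ∈ N, ∃ b ∈ N, a * b ≠ b * a := by
    by_contra hcon
    push Not at hcon
    exact hc1 (HRed_ab N hN hmin hc2 hcon)
  obtain ⟨L, hLN, hLn, hLs, hLab, hcard, hA, hB, hsup⟩ := all_HMin G N hN hN0 hmin hnab
  have hpL : p ∣ Nat.card L := (Fact.out : p.Prime).dvd_of_dvd_pow (hc2.trans hcard)
  have hstar : StarR p R L := HRed_surj WRed_starIso (MonoidHom.id G) Function.surjective_id hCF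
    N L hN hLN hLn hLs hpL hLab
  -- some conjugate is not centralised
  have hex : ∃ g : G, ∃ u ∈ P, ∃ x ∈ L.map (MulAut.conj g).toMonoidHom, u * x ≠ x * u := by
    by_contra hcon
    push Not at hcon
    have h1 : N ≤ Subgroup.centralizer (P : Set G) := by
      rw [← hsup]
      refine iSup_le fun g x hx => ?_
      rw [Subgroup.mem_centralizer_iff]
      intro u hu
      exact hcon g u hu x hx
    have h2 : P ≤ Subgroup.centralizer (N : Set G) := by
      intro u hu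
      rw [Subgroup.mem_centralizer_iff]
      intro x hx
      exact (Subgroup.mem_centralizer_iff.1 (h1 hx) u hu).symm
    have h3 : (Subgroup.centralizer (N : Set G)) = ⊤ := by
      rw [eq_top_iff, ← hcl]
      exact Subgroup.normalClosure_le_normal h2
    obtain ⟨a, ha, b, hb, hne⟩ := hnab
    have h4 : b ∈ Subgroup.centralizer (N : Set G) := by
      rw [h3]
      exact Subgroup.mem_top _
    exact hne (Subgroup.mem_centralizer_iff.1 h4 a ha)
  obtain ⟨g, u, hu, x, hx, hux⟩ := hex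
  obtain ⟨e1⟩ := HRed_conjEquiv L g
  -- properties of L
  have hA' : ∀ w : G, (∀ y ∈ L, w * y * w⁻¹ ∈ L) ∨
      ∀ x ∈ L, ∀ y ∈ L, x * (w * y * w⁻¹) = (w * y * w⁻¹) * x := by
    intro w
    rcases hA w with h | h
    · left
      intro y hy
      rw [← h]
      exact (HRed_memConj L w _).2 ⟨y, hy, rfl⟩
    · exact Or.inr h
  have hB' : ∀ w : G, (∃ y ∈ L, w * y * w⁻¹ ∉ L) → ∀ y ∈ L, w * y * w⁻¹ ∈ L → y = 1 := by
    rintro w ⟨z, hz, hz'⟩ y hy hy'
    have hne : L.map (MulAut.conj w).toMonoidHom ≠ L := by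
      intro h
      apply hz'
      rw [← h]
      exact (HRed_memConj L w _).2 ⟨z, hz, rfl⟩
    have h1 : w * y * w⁻¹ ∈ L ⊓ L.map (MulAut.conj w).toMonoidHom :=
      ⟨hy', (HRed_memConj L w _).2 ⟨y, hy, rfl⟩⟩
    rw [hB w hne, Subgroup.mem_bot, conj_eq_one_iff] at h1
    exact h1
  set L1 : Subgroup G := L.map (MulAut.conj g).toMonoidHom with hL1
  have hm1 : ∀ z : G, z ∈ L1 ↔ ∃ y ∈ L, z = g * y * g⁻¹ := HRed_memConj L g
  have hm2 : ∀ z : G, g * z * g⁻¹ ∈ L1 ↔ z ∈ L := by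
    intro z
    rw [hm1]
    constructor
    · rintro ⟨y, hy, h⟩
      have : z = y := by
        simpa using h
      rwa [this]
    · intro hz
      exact ⟨z, hz, rfl⟩
  haveI := hLs
  have hs1 : IsSimpleGroup L1 := by
    haveI : Nontrivial L1 := e1.symm.toEquiv.nontrivial
    exact IsSimpleGroup.isSimpleGroup_of_surjective e1.toMonoidHom e1.surjective
  have hab1 : ∃ a b : L1, a * b ≠ b * a := by
    obtain ⟨a, b, h⟩ := hLab
    refine ⟨e1 a, e1 b, ?_⟩
    rw [← map_mul, ← map_mul]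
    intro h'
    exact h (e1.injective h')
  have hst1 : StarR p R L1 := WRed_starIso _ _ e1 hstar
  have hA1' : ∀ v : G, (∀ y ∈ L1, v * y * v⁻¹ ∈ L1) ∨
      ∀ x ∈ L1, ∀ y ∈ L1, x * (v * y * v⁻¹) = (v * y * v⁻¹) * x := by
    intro v
    rcases hA' (g⁻¹ * v * g) with h | h
    · left
      intro z hz
      obtain ⟨y, hy, rfl⟩ := (hm1 z).1 hz
      have := (hm2 _).2 (h y hy)
      have h3 : v * (g * y * g⁻¹) * v⁻¹ = g * (g⁻¹ * v * g * y * (g⁻¹ * v * g)⁻¹) * g⁻¹ := by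
        group
      rwa [h3]
    · right
      intro z hz z' hz'
      obtain ⟨y, hy, rfl⟩ := (hm1 z).1 hz
      obtain ⟨y', hy', rfl⟩ := (hm1 z').1 hz'
      have h2 := h y hy y' hy'
      have h3 : v * (g * y' * g⁻¹) * v⁻¹ = g * (g⁻¹ * v * g * y' * (g⁻¹ * v * g)⁻¹) * g⁻¹ := by
        group
      rw [h3]
      calc g * y * g⁻¹ * (g * (g⁻¹ * v * g * y' * (g⁻¹ * v * g)⁻¹) * g⁻¹)
          = g * (y * (g⁻¹ * v * g * y' * (g⁻¹ * v * g)⁻¹)) * g⁻¹ := by group
        _ = g * ((g⁻¹ * v * g * y' * (g⁻¹ * v * g)⁻¹) * y) * g⁻¹ := by rw [h2]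
        _ = g * (g⁻¹ * v * g * y' * (g⁻¹ * v * g)⁻¹) * g⁻¹ * (g * y * g⁻¹) := by group
  have hB1' : ∀ v : G, (∃ y ∈ L1, v * y * v⁻¹ ∉ L1) → ∀ y ∈ L1, v * y * v⁻¹ ∈ L1 → y = 1 := by
    rintro v ⟨z, hz, hz'⟩ z1 hz1 hz1'
    obtain ⟨y, hy, rfl⟩ := (hm1 z).1 hz
    obtain ⟨y1, hy1, rfl⟩ := (hm1 z1).1 hz1
    have h3 : ∀ y : G, v * (g * y * g⁻¹) * v⁻¹ =
        g * (g⁻¹ * v * g * y * (g⁻¹ * v * g)⁻¹) * g⁻¹ := by
      intro y
      group
    rw [h3, hm2] at hz' hz1'
    rw [conj_eq_one_iff]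
    exact hB' (g⁻¹ * v * g) ⟨y, hy, hz'⟩ y1 hy1 hz1'
  -- L1 is contained in Gam
  have hL1G : L1 ≤ GamR R P := by
    by_cases hc : ∃ v ∈ P, (∀ x ∈ L1, v * x * v⁻¹ ∈ L1) ∧ ∃ x ∈ L1, v * x ≠ x * v
    · obtain ⟨v, hv, hv1, hv2⟩ := hc
      exact hB1 p R hR G P L1 v hP hv hv1 hv2 hs1 hab1 hst1
    · push Not at hc
      have hmov : ∃ x ∈ L1, u * x * u⁻¹ ∉ L1 := by
        by_contra hcon
        push Not at hcon
        exact hux (hc u hu hcon x hx)
      by_cases hp2 : p = 2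
      · refine le_trans (all_HA1 p G P L1 u hP hu hc (fun v _ => hA1' v) (fun v _ => hB1' v) hmov
          hs1 hab1 ?_) hGG
        rw [hp2]
        exact HInv_odd L1 hs1 hab1
      · exact le_trans (prf_HA1O all_HNor p G P L1 u hp2 hP hu hc (fun v _ => hA1' v)
          (fun v _ => hB1' v) hmov hs1 hab1) hGG
  -- N normalises L1
  have hnorm : ∀ m ∈ N, ∀ z ∈ L1, m * z * m⁻¹ ∈ L1 := by
    intro m hm z hz
    obtain ⟨y, hy, rfl⟩ := (hm1 z).1 hz
    have h3 : m * (g * y * g⁻¹) * m⁻¹ = g * ((g⁻¹ * m * g) * y * (g⁻¹ * m * g)⁻¹) * g⁻¹ := by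
      group
    rw [h3, hm2]
    refine (Subgroup.normal_subgroupOf_iff hLN).1 hLn _ _ hy ?_
    have := hN.conj_mem m hm g⁻¹
    rwa [inv_inv] at this
  have hNle : N ≤ GamR R P := by
    rw [← hsup]
    refine iSup_le fun g' z hz => ?_
    obtain ⟨y, hy, rfl⟩ := (HRed_memConj L g' z).1 hz
    have h1 : g' * g⁻¹ ∈ GamR R P ⊔ N := by
      rw [sup_comm, hNG]
      exact Subgroup.mem_top _
    rw [← SetLike.mem_coe, Subgroup.mul_normal, Set.mem_mul] at h1
    obtain ⟨γ, hγ, m, hm, hγm⟩ := h1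
    have h2 : g' * y * g'⁻¹ = γ * (m * (g * y * g⁻¹) * m⁻¹) * γ⁻¹ := by
      have h5 : g' = γ * m * g := by
        rw [hγm]
        group
      rw [h5]
      group
    rw [h2]
    exact (GamR R P).mul_mem ((GamR R P).mul_mem hγ
      (hL1G (hnorm m hm _ ((hm2 y).2 hy)))) ((GamR R P).inv_mem hγ)
  refine htop ?_
  rw [eq_top_iff, ← hNG]
  exact sup_le hNle le_rfl

theorem prf_WRed (hNor : WNor) (hLift : WLift) (hAb : WAb) (hB1 : WB1) : WRed := by
  intro p _ R hR G _ _ P hP hcl hCF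
  exact WRed_aux hNor hLift hAb hB1 p R hR _ G P rfl hP hcl hCF

end MP7b0bad.MW
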