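import Pool.Agent.Work.MP_7b0bad_ag.MW.Stmts
import Pool.Agent.Work.MP_7b0bad_ag.AllH
import Pool.Agent.Work.MP_7b0bad_ag.SV.Fin
import Pool.Agent.Work.MP_7b0bad_ag.SV.VAll
import Pool.Agent.Work.MP_7b0bad_ag.SV.GAll
import Pool.Agent.Work.MP_7b0bad_ag.SV.LAll

set_option autoImplicit false

/-!
# Block MW: `Rel k` satisfies the axioms
-/

namespace MP7b0bad.MW

/-- item [WRel] -/
theorem prf_WRel : WRel := by
  intro k _ _ p _ _
  refine ⟨YMain_relAx all_QIso all_QRP all_QR1 all_QR2 all_YBlk k p, ?_⟩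
  intro G _ _ P N _ hP hn hs hR
  have hAx := MP7b0bad.GT.all_GAx p _ (MP7b0bad.SV.all_VRAx k p)
  have hi : (P.subgroupOf P).index = 1 := by
    rw [Subgroup.subgroupOf_self, Subgroup.index_top]
  have hH : MP7b0bad.SVF.Hyp p P P := by
    refine ⟨le_rfl, ?_, hP, ?_, ⟨1, ?_⟩, hn⟩
    · rw [Subgroup.subgroupOf_self]
      infer_instance
    · rw [hi]
      exact Nat.coprime_one_left p
    · simp
  have ho := (MP7b0bad.all_T0 k (G ⧸ N) (P.map (QuotientGroup.mk' N))).mp hR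
  refine (MP7b0bad.all_T0 k G P).mpr ?_
  refine MP7b0bad.SVF.occ_main k p MP7b0bad.all_T0 hAx MP7b0bad.GT.all_GMain
    MP7b0bad.GT.all_GHyp G P P N hH hs ?_ ho
  intro r hr _ _ h1
  rw [hi] at h1
  exact hr.one_lt.ne' (Nat.dvd_one.mp h1)

end MP7b0bad.MW
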