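import Pool.Agent.Work.MP_7b0bad_ag.MW.Stmts
import Pool.Agent.Work.MP_7b0bad_ag.MT.ANax
import Pool.Agent.Work.MP_7b0bad_ag.MT.MQp
import Pool.Agent.Work.MP_7b0bad_ag.MT.MSgn

set_option autoImplicit false

/-!
# Item WSd: the seeds for the alternating groups
-/

namespace MP7b0bad.MW

/-- removing the tame part -/
theorem WSd_rz1 {k : Type} [Field k] [IsAlgClosed k] (p : ℕ) [Fact p.Prime] [CharP k p]
    {G : Type} [Group G] [Finite G] {x c : G} {H : Subgroup G}
    (hx : IsPGroup p (Subgroup.zpowers x)) (hc : ¬ p ∣ orderOf c)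
    (ha : ∃ a : ℕ, c * x * c⁻¹ = x ^ a) (h : MT.Rz k (Subgroup.zpowers x) c H) :
    MT.Rz k (Subgroup.zpowers x) 1 H := by
  have h1 := MT.anax_pow p (orderOf c) ⟨hx, hc, MT.anax_nz ha⟩ h
  rwa [pow_orderOf_eq_one] at h1

theorem WSd_out {k : Type} [Field k] {G : Type} [Group G] {x : G} {H : Subgroup G}
    (h : MT.Rz k (Subgroup.zpowers x) 1 H) :
    x ∈ H ∧ Rel k H ((Subgroup.zpowers x).subgroupOf H) := by
  obtain ⟨h2, h3⟩ := h
  rw [Subgroup.zpowers_one_eq_bot, sup_bot_eq] at h2 h3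
  exact ⟨h2 (Subgroup.mem_zpowers x), h3⟩

theorem WSd_sub {G : Type} [Group G] {H : Subgroup G} (d : H) :
    (Subgroup.zpowers (d : G)).subgroupOf H = Subgroup.zpowers d := by
  have := MonoidHom.map_zpowers H.subtype d
  change _ = Subgroup.zpowers (d : G) at this
  rw [← this, Subgroup.subgroupOf]
  exact Subgroup.comap_map_eq_self_of_injective H.subtype_injective _

theorem WSd_pgrp {G : Type} [Group G] {p : ℕ} [Fact p.Prime] {x : G} (h : orderOf x = p) :
    IsPGroup p (Subgroup.zpowers x) := by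
  refine IsPGroup.of_card (n := 1) ?_
  rw [Nat.card_zpowers, h, pow_one]

theorem WSd_ncl {G : Type} [Group G] {H P : Subgroup G} (hP : P ≤ H)
    (h : Subgroup.normalClosure ((P.subgroupOf H : Subgroup H) : Set H) = ⊤) : nclIn H P = H := by
  refine le_antisymm ?_ ?_
  · rw [nclIn, Subgroup.closure_le]
    rintro _ ⟨y, hy, q, hq, rfl⟩
    exact H.mul_mem (H.mul_mem hy (hP hq)) (H.inv_mem hy)
  · have hle : (Subgroup.normalClosure ((P.subgroupOf H : Subgroup H) : Set H)).map H.subtype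
        ≤ nclIn H P := by
      rw [Subgroup.normalClosure, MonoidHom.map_closure, Subgroup.closure_le]
      rintro _ ⟨y, hy, rfl⟩
      obtain ⟨q, hq, hqy⟩ := Group.mem_conjugatesOfSet_iff.mp hy
      obtain ⟨a, ha⟩ := isConj_iff.mp hqy
      rw [← ha]
      exact Subgroup.subset_closure ⟨a, a.2, q, hq, rfl⟩
    intro y hy
    exact hle ⟨⟨y, hy⟩, by rw [h]; exact Subgroup.mem_top _, rfl⟩

theorem prf_WSd (hAp : ApMain) (hAb : MT.AbMain) : WSd := by
  intro k _ _ p _ _ hp5
  have hp2 : p ≠ 2 := by omega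
  have hpp : p.Prime := Fact.out
  refine ⟨?_, ?_⟩
  · intro x hx hxs
    obtain ⟨x0, c, hx0, hxs0, hc, ha, -, hR⟩ := hAp p k hp5
    have hR1 := WSd_rz1 p (WSd_pgrp (by rw [hx0.orderOf, hxs0])) hc ha hR
    obtain ⟨g, hg⟩ := isConj_iff.mp (hx0.isConj hx (by rw [hxs0, hxs]))
    have hR2 := MT.anax_tr p (MulAut.conj g).toMonoidHom hR1
    have hm : (alternatingGroup (Fin p)).map (MulAut.conj g).toMonoidHom
        = alternatingGroup (Fin p) := by
      refine le_antisymm ?_ ?_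
      · rintro _ ⟨y, hy, rfl⟩
        exact (inferInstance : (alternatingGroup (Fin p)).Normal).conj_mem y hy g
      · intro y hy
        refine ⟨g⁻¹ * y * g, ?_, ?_⟩
        · have := (inferInstance : (alternatingGroup (Fin p)).Normal).conj_mem y hy g⁻¹
          rwa [inv_inv] at this
        · change g * (g⁻¹ * y * g) * g⁻¹ = y
          group
    rw [hm, MonoidHom.map_zpowers, map_one] at hR2
    have he : (MulAut.conj g).toMonoidHom x0 = (x : Equiv.Perm (Fin p)) := hg
    rw [he] at hR2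
    have h3 := (WSd_out hR2).2
    rwa [WSd_sub] at h3
  · obtain ⟨H, x, c, hx, hxs, hc, ha, -, -, -, hH, hR⟩ := hAb p k 1 hp2 one_pos
      (fun h => hpp.one_lt.ne' (Nat.dvd_one.mp h))
    have hpg := WSd_pgrp (p := p) (x := x) (by rw [hx.orderOf, hxs])
    have hR1 := WSd_rz1 p hpg hc ha hR
    obtain ⟨hxH, hR2⟩ := WSd_out hR1
    have hle : Subgroup.zpowers x ≤ H := Subgroup.zpowers_le.mpr hxH
    refine ⟨H, x, hx, hxs, hxH, ?_, hH, ?_, hR2⟩
    · intro g hg
      rw [Equiv.Perm.mem_alternatingGroup]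
      exact MT.prf_MSgn k p H _ hp2 hR2 (Equiv.Perm.sign.comp H.subtype) ⟨g, hg⟩
    · refine WSd_ncl hle (MT.prf_MQp k p H ((Subgroup.zpowers x).subgroupOf H) 1 ⟨?_, ?_, ?_⟩ ?_)
      · exact hpg.comap_of_injective H.subtype H.subtype_injective
      · rw [orderOf_one]
        exact fun h => hpp.one_lt.ne' (Nat.dvd_one.mp h)
      · intro y hy
        simpa using hy
      · rw [Subgroup.zpowers_one_eq_bot, sup_bot_eq]
        exact hR2

end MP7b0bad.MW
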