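import Pool.Agent.Work.MP_7b0bad_ag.MW.Stmts
import Pool.Agent.Work.MP_7b0bad_ag.Bd.B11

set_option autoImplicit false

/-!
# Item WSup: a supplement with solvable intersection
-/

namespace MP7b0bad.MW

open Subgroup
open scoped Pointwise

/-- a Sylow subgroup of `K` normalised by the `p`-group `P` -/
theorem WSup_sylow {G : Type} [Group G] [Finite G] (p r : ℕ) [Fact p.Prime] [Fact r.Prime]
    (P K : Subgroup G) [K.Normal] (hP : IsPGroup p P) (hr : r = p ∨ ¬ p ∣ Nat.card K) :
    ∃ R : Sylow r K, P ≤ normalizer ((R.map K.subtype : Subgroup G) : Set G) := by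
  classical
  let φ : P →* MulAut K := (MulAut.conjNormal (H := K)).comp P.subtype
  letI act : MulAction P (Sylow r K) := MulAction.compHom (Sylow r K) φ
  have hnd : ¬ p ∣ Nat.card (Sylow r K) := by
    rcases hr with rfl | h
    · exact not_dvd_card_sylow r K
    · intro h1
      obtain ⟨R⟩ : Nonempty (Sylow r K) := inferInstance
      exact h (h1.trans (R.card_dvd_index.trans (Subgroup.index_dvd_card _)))
  obtain ⟨R, hR⟩ := hP.nonempty_fixed_point_of_prime_not_dvd_card (Sylow r K) hnd
  refine ⟨R, ?_⟩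
  have key : ∀ g ∈ P, ∀ x : G, x ∈ (R.map K.subtype : Subgroup G) →
      g * x * g⁻¹ ∈ (R.map K.subtype : Subgroup G) := by
    rintro g hg x ⟨y, hy, rfl⟩
    have h1 : (φ ⟨g, hg⟩) • R = R := hR ⟨g, hg⟩
    have h2 : (φ ⟨g, hg⟩) • (R : Subgroup K) = R := by
      rw [← Sylow.pointwise_smul_def, h1]
    have h3 : (φ ⟨g, hg⟩) • y ∈ (R : Subgroup K) := by
      rw [← h2]
      exact Subgroup.smul_mem_pointwise_smul _ _ _ hy
    refine ⟨(φ ⟨g, hg⟩) • y, h3, ?_⟩
    show ((MulAut.conjNormal g y : K) : G) = g * (y : G) * g⁻¹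
    exact MulAut.conjNormal_apply g y
  intro g hg
  rw [Subgroup.mem_normalizer_iff]
  intro x
  refine ⟨fun hx => key g hg x hx, fun hx => ?_⟩
  have h1 := key g⁻¹ (P.inv_mem hg) _ hx
  have h2 : g⁻¹ * (g * x * g⁻¹) * g⁻¹⁻¹ = x := by group
  rwa [h2] at h1

theorem WSup_core (p : ℕ) [Fact p.Prime] : ∀ (n : ℕ) (G : Type) [Group G] [Finite G],
    Nat.card G = n → ∀ (P K : Subgroup G) [K.Normal], IsPGroup p P →
    (∀ T : Subgroup G, P ≤ T → K ⊔ T = ⊤ → T = ⊤) → Group.IsSolvable K := by
  intro n
  induction n using Nat.strong_induction_on with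
  | _ n ih =>
    intro G _ _ hn P K _ hP hmin
    by_cases hK : K = ⊥
    · subst hK
      infer_instance
    -- choose a prime
    have hcard : Nat.card K ≠ 1 := fun h => hK (Subgroup.card_eq_one.1 h)
    obtain ⟨r, hr, hrd, hrp⟩ : ∃ r : ℕ, r.Prime ∧ r ∣ Nat.card K ∧
        (r = p ∨ ¬ p ∣ Nat.card K) := by
      by_cases hp : p ∣ Nat.card K
      · exact ⟨p, Fact.out, hp, Or.inl rfl⟩
      · obtain ⟨r, hr, hrd⟩ := Nat.exists_prime_and_dvd hcard
        exact ⟨r, hr, hrd, Or.inr hp⟩
    haveI : Fact r.Prime := ⟨hr⟩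
    obtain ⟨R, hR⟩ := WSup_sylow p r P K hP hrp
    have htop : normalizer ((R.map K.subtype : Subgroup G) : Set G) = ⊤ := by
      refine hmin _ hR ?_
      rw [sup_comm]
      exact Sylow.normalizer_sup_eq_top R
    set R' : Subgroup G := R.map K.subtype with hR'
    haveI hRn : R'.Normal := Subgroup.normalizer_eq_top_iff.1 htop
    have hRK : R' ≤ K := Subgroup.map_subtype_le _
    have hRb : R' ≠ ⊥ := by
      intro h
      have h1 : (R : Subgroup K) = ⊥ := by
        rw [hR', Subgroup.map_eq_bot_iff_of_injective _ K.subtype_injective] at h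
        exact h
      exact R.ne_bot_of_dvd_card hrd h1
    have hlt : Nat.card (G ⧸ R') < n := by
      rw [← hn, Subgroup.card_eq_card_quotient_mul_card_subgroup R']
      have h1 : 0 < Nat.card (G ⧸ R') := Nat.card_pos
      have h2 : 1 < Nat.card R' := by
        rw [Subgroup.one_lt_card_iff_ne_bot]
        exact hRb
      nlinarith
    haveI : (K.map (QuotientGroup.mk' R')).Normal :=
      Subgroup.Normal.map inferInstance _ (QuotientGroup.mk'_surjective R')
    have hsolv : Group.IsSolvable (K.map (QuotientGroup.mk' R')) := by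
      refine ih _ hlt (G ⧸ R') rfl (P.map (QuotientGroup.mk' R')) (K.map (QuotientGroup.mk' R'))
        (hP.map _) ?_
      intro T hPT hKT
      have h1 : T.comap (QuotientGroup.mk' R') = ⊤ := by
        refine hmin _ (Subgroup.map_le_iff_le_comap.1 hPT) ?_
        have h2 : (K ⊔ T.comap (QuotientGroup.mk' R')).map (QuotientGroup.mk' R') = ⊤ := by
          rw [Subgroup.map_sup, Subgroup.map_comap_eq_self_of_surjective
            (QuotientGroup.mk'_surjective R'), hKT]
        have h3 : (QuotientGroup.mk' R').ker ≤ K ⊔ T.comap (QuotientGroup.mk' R') := by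
          rw [QuotientGroup.ker_mk']
          exact hRK.trans le_sup_left
        have h4 := Subgroup.comap_map_eq_self h3
        rw [h2, Subgroup.comap_top] at h4
        exact h4.symm
      have h5 : T = (T.comap (QuotientGroup.mk' R')).map (QuotientGroup.mk' R') :=
        (Subgroup.map_comap_eq_self_of_surjective (QuotientGroup.mk'_surjective R') T).symm
      rw [h5, h1]
      exact Subgroup.map_top_of_surjective _ (QuotientGroup.mk'_surjective R')
    -- the extension
    haveI hRs : Group.IsSolvable (R : Subgroup K) := by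
      haveI : Group.IsNilpotent (R : Subgroup K) := R.isPGroup'.isNilpotent
      infer_instance
    haveI := hsolv
    let g : K →* (K.map (QuotientGroup.mk' R') : Subgroup (G ⧸ R')) :=
      ((QuotientGroup.mk' R').comp K.subtype).codRestrict _ fun x =>
        Subgroup.mem_map_of_mem _ x.2
    refine Group.isSolvable_of_ker_le_range (R : Subgroup K).subtype g ?_
    intro x hx
    rw [Subgroup.range_subtype]
    have h1 : ((QuotientGroup.mk' R') (x : G)) = 1 := by
      have h2 := congrArg Subtype.val (MonoidHom.mem_ker.1 hx)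
      exact h2
    rw [← MonoidHom.mem_ker, QuotientGroup.ker_mk'] at h1
    obtain ⟨y, hy, hyx⟩ := h1
    have : y = x := Subtype.ext hyx
    rw [← this]
    exact hy

theorem prf_WSup : WSup := by
  intro p _ G _ _ P N _ hP hcl
  classical
  -- a minimal supplement
  obtain ⟨H, ⟨hPH, hNH⟩, hmin⟩ := (Set.toFinite {H : Subgroup G | P ≤ H ∧ N ⊔ H = ⊤}).exists_minimal
    ⟨⊤, le_top, sup_top_eq N⟩
  have hmin' : ∀ Y : Subgroup G, P ≤ Y → N ⊔ Y = ⊤ → Y ≤ H → Y = H := fun Y h1 h2 h3 =>
    le_antisymm h3 (hmin ⟨h1, h2⟩ h3)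
  refine ⟨H, hPH, hNH, ?_, ?_⟩
  · refine WSup_core p _ H rfl (P.subgroupOf H) (N.subgroupOf H)
      (hP.comap_subtype) ?_
    intro T hPT hKT
    have h1 : T.map H.subtype = H := by
      refine hmin' _ ?_ ?_ (Subgroup.map_subtype_le _)
      · intro x hx
        exact ⟨⟨x, hPH hx⟩, hPT (Subgroup.mem_subgroupOf.2 hx), rfl⟩
      · have h2 : H ≤ N ⊔ T.map H.subtype := by
          have h3 : (N.subgroupOf H ⊔ T).map H.subtype ≤ N ⊔ T.map H.subtype := by
            rw [Subgroup.map_sup]
            refine sup_le_sup ?_ le_rfl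
            rintro _ ⟨y, hy, rfl⟩
            exact Subgroup.mem_subgroupOf.1 hy
          rw [hKT, ← MonoidHom.range_eq_map, Subgroup.range_subtype] at h3
          exact h3
        rw [eq_top_iff, ← hNH]
        exact sup_le le_sup_left h2
    rw [eq_top_iff]
    intro x _
    have h4 : (x : G) ∈ T.map H.subtype := by
      rw [h1]
      exact x.2
    obtain ⟨y, hy, hyx⟩ := h4
    have : y = x := Subtype.ext hyx
    rw [← this]
    exact hy
  · obtain ⟨Y, hPY, hYH, hY, hYM⟩ := prf_GSC G H P hPH
    have h1 : N ⊔ Y = ⊤ := hYM N inferInstance hNH (by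
      rw [eq_top_iff, ← hcl]
      exact Subgroup.normalClosure_mono Set.subset_union_left)
    have h2 : Y = H := hmin' Y hPY h1 hYH
    rw [← h2]
    exact hY

end MP7b0bad.MW
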