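import Pool.Agent.Work.MP_7b0bad_ag.MW.Stmts
import Pool.Agent.Work.MP_7b0bad_ag.MW.WAb
import Pool.Agent.Work.MP_7b0bad_ag.MW.WAlt
import Pool.Agent.Work.MP_7b0bad_ag.MW.WAlt1
import Pool.Agent.Work.MP_7b0bad_ag.MW.WAlt2
import Pool.Agent.Work.MP_7b0bad_ag.MW.WAlt3
import Pool.Agent.Work.MP_7b0bad_ag.MW.WB1
import Pool.Agent.Work.MP_7b0bad_ag.MW.WEmb
import Pool.Agent.Work.MP_7b0bad_ag.MW.WFin
import Pool.Agent.Work.MP_7b0bad_ag.MW.WLift
import Pool.Agent.Work.MP_7b0bad_ag.MW.WNor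
import Pool.Agent.Work.MP_7b0bad_ag.MW.WRed
import Pool.Agent.Work.MP_7b0bad_ag.MW.WRel
import Pool.Agent.Work.MP_7b0bad_ag.MW.WSd
import Pool.Agent.Work.MP_7b0bad_ag.MW.WSup
import Pool.Agent.Work.MP_7b0bad_ag.ApT.All
import Pool.Agent.Work.MP_7b0bad_ag.AnT.AnAll

set_option autoImplicit false

/-!
# Block MW: assembly without hypotheses
-/

namespace MP7b0bad.MW

theorem all_WNor : WNor := prf_WNor
theorem all_WSup : WSup := prf_WSup
theorem all_WEmb : WEmb := prf_WEmb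
theorem all_WAb : WAb := prf_WAb
theorem all_WRel : WRel := prf_WRel
theorem all_WLift : WLift := prf_WLift all_WSup
theorem all_WB1 : WB1 := prf_WB1 all_WNor
theorem all_WRed : WRed := prf_WRed all_WNor all_WLift all_WAb all_WB1
theorem all_WAlt1 : WAlt1 := prf_WAlt1
theorem all_WAlt2 : WAlt2 := prf_WAlt2
theorem all_WAlt3 : WAlt3 := prf_WAlt3 all_WNor all_WAlt1 all_WAlt2
theorem all_WAlt : WAlt := prf_WAlt all_WNor all_WAlt3 all_WEmb
theorem all_WSd : WSd := prf_WSd ApT.all_ApMain AnT.all_AbMain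
theorem all_WFin : WFin := prf_WFin all_WRed all_WAlt all_WRel all_WSd all_WNor

end MP7b0bad.MW
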