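import Mathlib
import Pool.Agent.Work.MP_7b0bad_ag.MW.Stmts

set_option autoImplicit false

/-!
# Block MW, item WNor: basic properties of `GamR`
-/

namespace MP7b0bad.MW

/-- transport of `R` along an injective homomorphism -/
theorem WNor_map {p : ℕ} {R : ∀ (G : Type) [Group G], Subgroup G → Prop} (ax : RelAx p R)
    {G G' : Type} [Group G] [Group G'] (f : G →* G') (hf : Function.Injective f)
    (X P' : Subgroup G) (hR : R X (P'.subgroupOf X)) :
    R (X.map f) ((P'.map f).subgroupOf (X.map f)) := by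
  have h1 := ax.iso _ _ (X.equivMapOfInjective f hf) (P'.subgroupOf X) hR
  have h2 : (P'.subgroupOf X).map (X.equivMapOfInjective f hf).toMonoidHom =
      (P'.map f).subgroupOf (X.map f) := by
    ext ⟨y, hy⟩
    rw [Subgroup.mem_subgroupOf, Subgroup.mem_map, Subgroup.mem_map]
    constructor
    · rintro ⟨⟨x, hx⟩, hxP, hxy⟩
      rw [Subgroup.mem_subgroupOf] at hxP
      exact ⟨x, hxP, congrArg Subtype.val hxy⟩
    · rintro ⟨x, hxP, hxy⟩
      obtain ⟨z, hz, hzy⟩ := Subgroup.mem_map.1 hy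
      have hzx : z = x := hf (hzy.trans hxy.symm)
      subst hzx
      refine ⟨⟨z, hz⟩, ?_, ?_⟩
      · rw [Subgroup.mem_subgroupOf]
        exact hxP
      · exact Subtype.ext hxy
  rw [h2] at h1
  exact h1

theorem WNor_RHmap {p : ℕ} {R : ∀ (G : Type) [Group G], Subgroup G → Prop} (ax : RelAx p R)
    {G G' : Type} [Group G] [Group G'] (f : G →* G') (hf : Function.Injective f)
    (P H : Subgroup G) (Q : Subgroup G') (h : RH R P H) (hPQ : P.map f ≤ Q) :
    RH R Q (H.map f) := by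
  obtain ⟨P', h1, h2, h3⟩ := h
  exact ⟨P'.map f, (Subgroup.map_mono h1).trans hPQ, Subgroup.map_mono h2,
    WNor_map ax f hf H P' h3⟩

/-- functoriality of `GamR` for injective homomorphisms -/
theorem WNor_GamMap {p : ℕ} {R : ∀ (G : Type) [Group G], Subgroup G → Prop} (ax : RelAx p R)
    {G G' : Type} [Group G] [Group G'] (f : G →* G') (hf : Function.Injective f)
    (P : Subgroup G) (Q : Subgroup G') (hPQ : P.map f ≤ Q) :
    (GamR R P).map f ≤ GamR R Q := by
  rw [Subgroup.map_le_iff_le_comap]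
  refine sSup_le fun H hH => ?_
  rw [← Subgroup.map_le_iff_le_comap]
  exact le_sSup (WNor_RHmap ax f hf P H Q hH hPQ)

/-- restriction of a realised subgroup to an overgroup `Y` -/
theorem WNor_RHsub {p : ℕ} {R : ∀ (G : Type) [Group G], Subgroup G → Prop} (ax : RelAx p R)
    {G : Type} [Group G] (P H Y : Subgroup G) (hHY : H ≤ Y) (h : RH R P H) :
    RH R (P.subgroupOf Y) (H.subgroupOf Y) := by
  obtain ⟨P', h1, h2, h3⟩ := h
  refine ⟨P'.subgroupOf Y, fun x hx => h1 hx, fun x hx => h2 hx, ?_⟩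
  have h4 := ax.iso _ _ (Subgroup.subgroupOfEquivOfLe hHY).symm (P'.subgroupOf H) h3
  have h5 : (P'.subgroupOf H).map (Subgroup.subgroupOfEquivOfLe hHY).symm.toMonoidHom =
      (P'.subgroupOf Y).subgroupOf (H.subgroupOf Y) := by
    ext ⟨⟨y, hy1⟩, hy2⟩
    rw [Subgroup.mem_subgroupOf, Subgroup.mem_map, Subgroup.mem_subgroupOf]
    constructor
    · rintro ⟨⟨x, hx⟩, hxP, hxy⟩
      rw [Subgroup.mem_subgroupOf] at hxP
      have h6 : x = y := congrArg (fun z : H.subgroupOf Y => ((z : Y) : G)) hxy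
      subst h6
      exact hxP
    · intro hy
      exact ⟨⟨y, hy2⟩, Subgroup.mem_subgroupOf.2 hy, rfl⟩
  rw [h5] at h4
  exact h4

theorem prf_WNor : WNor := by
  intro p _ R ax G _ _ P hP
  have hPG : P ≤ GamR R P := le_sSup (all_GJoin p R ax G P hP).1
  refine ⟨hPG, ?_, (all_GJoin p R ax G P hP).2, ?_, ?_, ?_⟩
  · refine sSup_le fun Y hY => le_sSup ?_
    obtain ⟨P', h1, h2, h3, h4⟩ := hY
    refine ⟨P', h1, h2, all_GB p R ax Y (P'.subgroupOf Y) h4 ?_ (HCrit_ncl Y P' h2 h3)⟩
    exact (hP.to_le h1).of_equiv (Subgroup.subgroupOfEquivOfLe h2).symm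
  · refine (all_GJoin p R ax (GamR R P) (P.subgroupOf (GamR R P))
      (hP.of_equiv (Subgroup.subgroupOfEquivOfLe hPG).symm)).2 ?_
    have key : GamR R P ≤ (sSup {H : Subgroup (GamR R P) |
        RH R (P.subgroupOf (GamR R P)) H}).map (GamR R P).subtype := by
      refine sSup_le fun H hH => ?_
      have hHG : H ≤ GamR R P := le_sSup hH
      intro x hx
      refine ⟨⟨x, hHG hx⟩, ?_, rfl⟩
      have h1 : H.subgroupOf (GamR R P) ≤ sSup {H : Subgroup (GamR R P) |
          RH R (P.subgroupOf (GamR R P)) H} :=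
        le_sSup (WNor_RHsub ax P H (GamR R P) hHG hH)
      exact h1 (Subgroup.mem_subgroupOf.2 hx)
    rw [eq_top_iff]
    intro y _
    obtain ⟨z, hz, hzy⟩ := key y.2
    have hzy' : z = y := Subtype.ext hzy
    rw [← hzy']
    exact hz
  · intro c hc x hx
    have h1 := WNor_GamMap ax (MulAut.conj c).toMonoidHom (MulAut.conj c).injective P P (by
      rintro _ ⟨q, hq, rfl⟩
      exact hc q hq)
    exact h1 ⟨x, hx, rfl⟩
  · intro X P' hP' _
    refine WNor_GamMap ax X.subtype X.subtype_injective _ P ?_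
    rintro _ ⟨q, hq, rfl⟩
    exact hP' hq

end MP7b0bad.MW
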